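import Mathlib

/-! Weighted `ℓ²` bounds, pointwise limits and weighted `ℓ¹` convergence (packet FT-LIN). -/

set_option autoImplicit false

namespace Pool.Agent.Helper53.FT

open Filter
open scoped Topology

variable {ι : Type*}

/-- weighted Cauchy-Schwarz -/
theorem cs_fin (W v q : ι → ℝ) (hW : ∀ k, 0 ≤ W k) (hv : ∀ k, 0 ≤ v k) (hq : ∀ k, 0 ≤ q k)
    (hvq : ∀ k, v k ^ 2 ≤ q k * W k) (b : ι → ℂ) (s : Finset ι) (E Q : ℝ)
    (hE : ∑ k ∈ s, W k * ‖b k‖ ^ 2 ≤ E) (hQ : ∑ k ∈ s, q k ≤ Q) :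
    ∑ k ∈ s, v k * ‖b k‖ ≤ √(Q * E) := by
  have hE0 : 0 ≤ E := le_trans (Finset.sum_nonneg fun k _ => mul_nonneg (hW k) (by positivity)) hE
  have hQ0 : 0 ≤ Q := le_trans (Finset.sum_nonneg fun k _ => hq k) hQ
  have h1 : ∑ k ∈ s, v k * ‖b k‖ ≤ ∑ k ∈ s, √(q k) * (√(W k) * ‖b k‖) := by
    apply Finset.sum_le_sum
    intro k _
    rw [← mul_assoc]
    apply mul_le_mul_of_nonneg_right _ (norm_nonneg _)
    rw [← Real.sqrt_mul (hq k)]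
    exact Real.le_sqrt_of_sq_le (hvq k)
  refine h1.trans (Real.le_sqrt_of_sq_le ?_)
  refine (Finset.sum_mul_sq_le_sq_mul_sq s (fun k => √(q k)) (fun k => √(W k) * ‖b k‖)).trans ?_
  have h2 : ∑ k ∈ s, √(q k) ^ 2 = ∑ k ∈ s, q k :=
    Finset.sum_congr rfl fun k _ => Real.sq_sqrt (hq k)
  have h3 : ∑ k ∈ s, (√(W k) * ‖b k‖) ^ 2 = ∑ k ∈ s, W k * ‖b k‖ ^ 2 :=
    Finset.sum_congr rfl fun k _ => by rw [mul_pow, Real.sq_sqrt (hW k)]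
  rw [h2, h3]
  exact mul_le_mul hQ hE (Finset.sum_nonneg fun k _ => mul_nonneg (hW k) (by positivity)) hQ0

theorem cs_tsum (W v q : ι → ℝ) (hW : ∀ k, 0 ≤ W k) (hv : ∀ k, 0 ≤ v k) (hq : ∀ k, 0 ≤ q k)
    (hvq : ∀ k, v k ^ 2 ≤ q k * W k) (b : ι → ℂ) (E Q : ℝ)
    (hE : ∀ s : Finset ι, ∑ k ∈ s, W k * ‖b k‖ ^ 2 ≤ E) (hQ : ∀ s : Finset ι, ∑ k ∈ s, q k ≤ Q) :
    Summable (fun k => v k * ‖b k‖) ∧ ∑' k, v k * ‖b k‖ ≤ √(Q * E) := by
  have h0 : ∀ k, 0 ≤ v k * ‖b k‖ := fun k => mul_nonneg (hv k) (norm_nonneg _)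
  have h1 : ∀ s : Finset ι, ∑ k ∈ s, v k * ‖b k‖ ≤ √(Q * E) := fun s =>
    cs_fin W v q hW hv hq hvq b s E Q (hE s) (hQ s)
  have h2 : Summable (fun k => v k * ‖b k‖) := summable_of_sum_le h0 h1
  exact ⟨h2, h2.tsum_le_of_sum_le h1⟩

/-- `ℓ²` bounded and pointwise null sequences are null in the weaker `ℓ¹` norm -/
theorem l1_null {α : Type*} {F : Filter α} (W v q : ι → ℝ) (hW : ∀ k, 0 ≤ W k)
    (hv : ∀ k, 0 ≤ v k) (hq : ∀ k, 0 ≤ q k) (hvq : ∀ k, v k ^ 2 ≤ q k * W k)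
    (hqs : Summable q) (b : α → ι → ℂ) (E : ℝ)
    (hE : ∀ n, ∀ s : Finset ι, ∑ k ∈ s, W k * ‖b n k‖ ^ 2 ≤ E)
    (hb : ∀ k, Tendsto (fun n => b n k) F (𝓝 0)) :
    Tendsto (fun n => ∑' k, v k * ‖b n k‖) F (𝓝 0) := by
  rcases isEmpty_or_nonempty α with hα | ⟨⟨n0⟩⟩
  · have : F = ⊥ := Filter.filter_eq_bot_of_isEmpty F
    rw [this]; exact tendsto_bot
  have hE0 : 0 ≤ E := by simpa using hE n0 ∅
  have hQ : ∀ s : Finset ι, ∑ k ∈ s, q k ≤ ∑' k, q k := fun s =>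
    hqs.sum_le_tsum s (fun k _ => hq k)
  rw [Metric.tendsto_nhds]
  intro ε hε
  -- choose the tail
  obtain ⟨δ, hδ0, hδ⟩ : ∃ δ : ℝ, 0 < δ ∧ √(δ * E) ≤ ε / 4 := by
    refine ⟨(ε / 4) ^ 2 / (E + 1), by positivity, ?_⟩
    apply Real.sqrt_le_iff.mpr
    refine ⟨by positivity, ?_⟩
    rw [div_mul_eq_mul_div, div_le_iff₀ (by positivity)]
    nlinarith [sq_nonneg (ε / 4)]
  obtain ⟨F0, hF0⟩ := (summable_iff_vanishing_norm.mp hqs) δ hδ0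
  have hfin : Tendsto (fun n => ∑ k ∈ F0, v k * ‖b n k‖) F (𝓝 0) := by
    have : Tendsto (fun n => ∑ k ∈ F0, v k * ‖b n k‖) F (𝓝 (∑ k ∈ F0, v k * ‖(0:ℂ)‖)) :=
      tendsto_finsetSum _ fun k _ => ((hb k).norm.const_mul (v k))
    simpa using this
  filter_upwards [(Metric.tendsto_nhds.mp hfin) (ε / 4) (by positivity)] with n hn
  rw [Real.dist_eq, sub_zero] at hn ⊢
  have hS0 : 0 ≤ ∑ k ∈ F0, v k * ‖b n k‖ :=
    Finset.sum_nonneg fun k _ => mul_nonneg (hv k) (norm_nonneg _)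
  rw [abs_of_nonneg hS0] at hn
  have h0 : ∀ k, 0 ≤ v k * ‖b n k‖ := fun k => mul_nonneg (hv k) (norm_nonneg _)
  have hsum := (cs_tsum W v q hW hv hq hvq (b n) E _ (hE n) hQ).1
  have hbd : ∀ s : Finset ι, ∑ k ∈ s, v k * ‖b n k‖ ≤ ε / 4 + ε / 4 := by
    classical
    intro s
    have h1 : ∑ k ∈ s, v k * ‖b n k‖ ≤ ∑ k ∈ F0 ∪ (s \ F0), v k * ‖b n k‖ := by
      apply Finset.sum_le_sum_of_subset_of_nonneg
      · intro k hk
        by_cases h : k ∈ F0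
        · exact Finset.mem_union_left _ h
        · exact Finset.mem_union_right _ (Finset.mem_sdiff.mpr ⟨hk, h⟩)
      · intro k _ _; exact h0 k
    rw [Finset.sum_union Finset.disjoint_sdiff] at h1
    have h2 : ∑ k ∈ s \ F0, v k * ‖b n k‖ ≤ √(δ * E) := by
      apply cs_fin W v q hW hv hq hvq (b n) (s \ F0) E δ (hE n _)
      have h3 := hF0 (s \ F0) Finset.sdiff_disjoint
      exact (le_abs_self _).trans h3.le
    linarith
  have h4 := hsum.tsum_le_of_sum_le hbd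
  rw [abs_of_nonneg (tsum_nonneg h0)]
  linarith

/-- pointwise limits along an ultrafilter -/
theorem exists_lim {α : Type*} (U : Ultrafilter α) (b : α → ι → ℂ) (B : ι → ℝ)
    (hB : ∀ n k, ‖b n k‖ ≤ B k) : ∃ a : ι → ℂ, ∀ k, Tendsto (fun n => b n k) U (𝓝 (a k)) := by
  have : ∀ k, ∃ x : ℂ, Tendsto (fun n => b n k) U (𝓝 x) := by
    intro k
    have hc : IsCompact (Metric.closedBall (0:ℂ) (B k)) := isCompact_closedBall _ _
    have hle : ((U.map (fun n => b n k) : Ultrafilter ℂ) : Filter ℂ)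
        ≤ 𝓟 (Metric.closedBall (0:ℂ) (B k)) := by
      rw [le_principal_iff]
      show _ ∈ Filter.map (fun n => b n k) (U : Filter α)
      rw [Filter.mem_map]
      apply Filter.univ_mem'
      intro n
      show b n k ∈ Metric.closedBall (0:ℂ) (B k)
      rw [mem_closedBall_zero_iff]
      exact hB n k
    obtain ⟨x, _, hx⟩ := hc.ultrafilter_le_nhds _ hle
    exact ⟨x, hx⟩
  choose a ha using this
  exact ⟨a, ha⟩

theorem lim_bd {α : Type*} {F : Filter α} [F.NeBot] (W : ι → ℝ) (b : α → ι → ℂ) (a : ι → ℂ)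
    (E : ℝ) (hE : ∀ n, ∀ s : Finset ι, ∑ k ∈ s, W k * ‖b n k‖ ^ 2 ≤ E)
    (hb : ∀ k, Tendsto (fun n => b n k) F (𝓝 (a k))) (s : Finset ι) :
    ∑ k ∈ s, W k * ‖a k‖ ^ 2 ≤ E := by
  have h : Tendsto (fun n => ∑ k ∈ s, W k * ‖b n k‖ ^ 2) F (𝓝 (∑ k ∈ s, W k * ‖a k‖ ^ 2)) :=
    tendsto_finsetSum _ fun k _ => (((hb k).norm.pow 2).const_mul (W k))
  exact le_of_tendsto h (Eventually.of_forall fun n => hE n s)

theorem l1_lim {α : Type*} {F : Filter α} [F.NeBot] (W v q : ι → ℝ) (hW : ∀ k, 0 ≤ W k)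
    (hv : ∀ k, 0 ≤ v k) (hq : ∀ k, 0 ≤ q k) (hvq : ∀ k, v k ^ 2 ≤ q k * W k)
    (hqs : Summable q) (b : α → ι → ℂ) (a : ι → ℂ) (E : ℝ)
    (hE : ∀ n, ∀ s : Finset ι, ∑ k ∈ s, W k * ‖b n k‖ ^ 2 ≤ E)
    (hb : ∀ k, Tendsto (fun n => b n k) F (𝓝 (a k))) :
    Tendsto (fun n => ∑' k, v k * ‖b n k - a k‖) F (𝓝 0) := by
  have ha := lim_bd W b a E hE hb
  apply l1_null W v q hW hv hq hvq hqs (fun n k => b n k - a k) (4 * E)
  · intro n s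
    have h1 : ∀ k ∈ s, W k * ‖b n k - a k‖ ^ 2 ≤ 2 * (W k * ‖b n k‖ ^ 2) + 2 * (W k * ‖a k‖ ^ 2) := by
      intro k _
      have h2 : ‖b n k - a k‖ ^ 2 ≤ 2 * ‖b n k‖ ^ 2 + 2 * ‖a k‖ ^ 2 := by
        have h3 := norm_sub_le (b n k) (a k)
        have h4 : ‖b n k - a k‖ ^ 2 ≤ (‖b n k‖ + ‖a k‖) ^ 2 :=
          pow_le_pow_left₀ (norm_nonneg _) h3 2
        nlinarith [sq_nonneg (‖b n k‖ - ‖a k‖)]
      nlinarith [mul_le_mul_of_nonneg_left h2 (hW k)]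
    refine (Finset.sum_le_sum h1).trans ?_
    rw [Finset.sum_add_distrib, ← Finset.mul_sum, ← Finset.mul_sum]
    linarith [hE n s, ha s]
  · intro k
    have := (hb k).sub_const (a k)
    simpa using this

end Pool.Agent.Helper53.FT
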