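import Pool.Agent.Helper53.FT.Ser
import Pool.Agent.Helper89.TW.Four

/-! Fourier coefficients in two variables (packet FT-LIN). -/

set_option autoImplicit false

namespace Pool.Agent.Helper53.FT

open Complex Set Filter Pool.Agent.Helper76.FT MeasureTheory
open scoped Topology Interval

/-- coefficient in `x` -/
noncomputable def cx (f : ℂ → ℝ → ℂ) (m : ℤ) (t : ℝ) : ℂ :=
  ∫ x in (0:ℝ)..1, f (x : ℂ) t * Complex.exp (-(2 * Real.pi * m * x : ℝ) * I)

theorem ee_split (m n : ℤ) (z : ℂ) (t : ℝ) :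
    ee m n z t = Complex.exp (2 * Real.pi * m * I * z) * Complex.exp ((2 * Real.pi * n * t : ℝ) * I) := by
  unfold ee
  rw [← Complex.exp_add]
  congr 1
  push_cast; ring

theorem ee_neg (m n : ℤ) (x t : ℝ) : ee (-m) (-n) (x:ℂ) t
    = Complex.exp (-(2 * Real.pi * m * x : ℝ) * I) * Complex.exp (-(2 * Real.pi * n * t : ℝ) * I) := by
  unfold ee
  rw [← Complex.exp_add]
  congr 1
  push_cast; ring

theorem fco_eq (f : ℂ → ℝ → ℂ) (m n : ℤ) :
    fco f m n = ∫ t in (0:ℝ)..1, cx f m t * Complex.exp (-(2 * Real.pi * n * t : ℝ) * I) := by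
  unfold fco cx
  apply intervalIntegral.integral_congr
  intro t _
  show ∫ x in (0:ℝ)..1, f (x : ℂ) t * ee (-m) (-n) (x : ℂ) t
    = (∫ x in (0:ℝ)..1, f (x : ℂ) t * Complex.exp (-(2 * Real.pi * m * x : ℝ) * I))
      * Complex.exp (-(2 * Real.pi * n * t : ℝ) * I)
  rw [← intervalIntegral.integral_mul_const]
  apply intervalIntegral.integral_congr
  intro x _
  show f (x : ℂ) t * ee (-m) (-n) (x : ℂ) t = f (x : ℂ) t *
    Complex.exp (-(2 * Real.pi * m * x : ℝ) * I) * Complex.exp (-(2 * Real.pi * n * t : ℝ) * I)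
  rw [ee_neg]
  exact (mul_assoc _ _ _).symm

theorem fco_congr (f f' : ℂ → ℝ → ℂ) (m n : ℤ)
    (h : ∀ x : ℝ, ∀ t ∈ Icc (0:ℝ) 1, f x t = f' x t) : fco f m n = fco f' m n := by
  unfold fco
  apply intervalIntegral.integral_congr
  intro t ht
  rw [uIcc_of_le zero_le_one] at ht
  apply intervalIntegral.integral_congr
  intro x _
  show f (x : ℂ) t * _ = f' (x : ℂ) t * _
  rw [h x t ht]

theorem continuous_cx (f : ℂ → ℝ → ℂ) (hf : Continuous (fun q : ℝ × ℝ => f (q.1 : ℂ) q.2)) (m : ℤ) :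
    Continuous (cx f m) := by
  unfold cx
  apply intervalIntegral.continuous_parametric_intervalIntegral_of_continuous'
    (f := fun (t x : ℝ) => f (x : ℂ) t * Complex.exp (-(2 * Real.pi * m * x : ℝ) * I))
  have h1 : Continuous (fun q : ℝ × ℝ => f (q.2 : ℂ) q.1) := hf.comp continuous_swap
  exact h1.mul (by fun_prop)

theorem cx_sub (f f' : ℂ → ℝ → ℂ) (hf : Continuous (fun q : ℝ × ℝ => f (q.1 : ℂ) q.2))
    (hf' : Continuous (fun q : ℝ × ℝ => f' (q.1 : ℂ) q.2)) (m : ℤ) (t : ℝ) :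
    cx (fun z t => f z t - f' z t) m t = cx f m t - cx f' m t := by
  unfold cx
  have hc : Continuous (fun x : ℝ => f (x:ℂ) t) := hf.comp (by fun_prop : Continuous fun x : ℝ => (x, t))
  have hc' : Continuous (fun x : ℝ => f' (x:ℂ) t) := hf'.comp (by fun_prop : Continuous fun x : ℝ => (x, t))
  have he : Continuous (fun x : ℝ => Complex.exp (-(2 * Real.pi * m * x : ℝ) * I)) := by fun_prop
  have hi : IntervalIntegrable (fun x : ℝ => f (x:ℂ) t *
    Complex.exp (-(2 * Real.pi * m * x : ℝ) * I)) volume 0 1 := (hc.mul he).intervalIntegrable _ _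
  have hi' : IntervalIntegrable (fun x : ℝ => f' (x:ℂ) t *
    Complex.exp (-(2 * Real.pi * m * x : ℝ) * I)) volume 0 1 := (hc'.mul he).intervalIntegrable _ _
  rw [← intervalIntegral.integral_sub hi hi']
  apply intervalIntegral.integral_congr
  intro x _
  show (f (x:ℂ) t - f' (x:ℂ) t) * _ = f (x:ℂ) t * _ - f' (x:ℂ) t * _
  ring

theorem fco_sub (f f' : ℂ → ℝ → ℂ) (hf : Continuous (fun q : ℝ × ℝ => f (q.1 : ℂ) q.2))
    (hf' : Continuous (fun q : ℝ × ℝ => f' (q.1 : ℂ) q.2)) (m n : ℤ) :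
    fco (fun z t => f z t - f' z t) m n = fco f m n - fco f' m n := by
  rw [fco_eq, fco_eq, fco_eq]
  have hc := continuous_cx f hf m
  have hc' := continuous_cx f' hf' m
  have he : Continuous (fun t : ℝ => Complex.exp (-(2 * Real.pi * n * t : ℝ) * I)) := by fun_prop
  have hi : IntervalIntegrable (fun t : ℝ => cx f m t *
    Complex.exp (-(2 * Real.pi * n * t : ℝ) * I)) volume 0 1 := (hc.mul he).intervalIntegrable _ _
  have hi' : IntervalIntegrable (fun t : ℝ => cx f' m t *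
    Complex.exp (-(2 * Real.pi * n * t : ℝ) * I)) volume 0 1 := (hc'.mul he).intervalIntegrable _ _
  rw [← intervalIntegral.integral_sub hi hi']
  apply intervalIntegral.integral_congr
  intro t _
  show cx (fun z t => f z t - f' z t) m t * _ = cx f m t * _ - cx f' m t * _
  rw [cx_sub f f' hf hf']
  ring

theorem norm_exp_neg (m : ℤ) (x : ℝ) : ‖Complex.exp (-(2 * Real.pi * m * x : ℝ) * I)‖ = 1 := by
  have : (-(2 * Real.pi * m * x : ℝ) * I : ℂ) = ((-(2 * Real.pi * m * x) : ℝ) : ℂ) * I := by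
    push_cast; ring
  rw [this, Complex.norm_exp_ofReal_mul_I]

theorem norm_cx_le (f : ℂ → ℝ → ℂ) (m : ℤ) (t K : ℝ)
    (h : ∀ x ∈ Icc (0:ℝ) 1, ‖f (x:ℂ) t‖ ≤ K) : ‖cx f m t‖ ≤ K := by
  unfold cx
  have h2 : ‖∫ x in (0:ℝ)..1, f (x : ℂ) t * Complex.exp (-(2 * Real.pi * m * x : ℝ) * I)‖
      ≤ K * |1 - 0| := by
    apply intervalIntegral.norm_integral_le_of_norm_le_const
    intro x hx
    rw [uIoc_of_le zero_le_one] at hx
    rw [norm_mul, norm_exp_neg, mul_one]
    exact h x ⟨hx.1.le, hx.2⟩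
  simpa using h2

theorem norm_fco_le (f : ℂ → ℝ → ℂ) (m n : ℤ) (K : ℝ)
    (h : ∀ x ∈ Icc (0:ℝ) 1, ∀ t ∈ Icc (0:ℝ) 1, ‖f (x:ℂ) t‖ ≤ K) : ‖fco f m n‖ ≤ K := by
  rw [fco_eq]
  have h2 : ‖∫ t in (0:ℝ)..1, cx f m t * Complex.exp (-(2 * Real.pi * n * t : ℝ) * I)‖
      ≤ K * |1 - 0| := by
    apply intervalIntegral.norm_integral_le_of_norm_le_const
    intro t ht
    rw [uIoc_of_le zero_le_one] at ht
    rw [norm_mul, norm_exp_neg, mul_one]
    exact norm_cx_le f m t K fun x hx => h x hx t ⟨ht.1.le, ht.2⟩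
  simpa using h2

/-- continuity of the coefficient under uniform convergence -/
theorem fco_tendsto {α : Type*} {F : Filter α} (f : α → ℂ → ℝ → ℂ) (f' : ℂ → ℝ → ℂ) (η : α → ℝ)
    (hf : ∀ A, Continuous (fun q : ℝ × ℝ => f A (q.1 : ℂ) q.2))
    (hf' : Continuous (fun q : ℝ × ℝ => f' (q.1 : ℂ) q.2))
    (h : ∀ A, ∀ x ∈ Icc (0:ℝ) 1, ∀ t ∈ Icc (0:ℝ) 1, ‖f A (x:ℂ) t - f' (x:ℂ) t‖ ≤ η A)
    (hη : Tendsto η F (𝓝 0)) (m n : ℤ) :
    Tendsto (fun A => fco (f A) m n) F (𝓝 (fco f' m n)) := by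
  rw [tendsto_iff_norm_sub_tendsto_zero]
  refine squeeze_zero (fun A => norm_nonneg _) (fun A => ?_) hη
  rw [← fco_sub (f A) f' (hf A) hf' m n]
  exact norm_fco_le _ m n (η A) (h A)

/-- integrating in time -/
theorem time_int (P : ℝ → ℂ) (hP : Continuous P) (α : ℤ → ℂ) (hα : Summable (fun n => ‖α n‖))
    (τ : ℝ) (h : ∀ n : ℤ, ∫ t in (0:ℝ)..1, P t * Complex.exp (-(2 * Real.pi * n * t : ℝ) * I)
      = τ * (2 * Real.pi * I * n) * α n) (t : ℝ) (ht : t ∈ Icc (0:ℝ) 1) :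
    ∫ s in (0:ℝ)..t, P s
      = τ * (∑' n : ℤ, α n * Complex.exp ((2 * Real.pi * n * t : ℝ) * I) - ∑' n : ℤ, α n) := by
  set Q : ℝ → ℂ := fun t => ∫ s in (0:ℝ)..t, P s with hQ
  have hQd : ∀ t, HasDerivAt Q (P t) t := fun t =>
    intervalIntegral.integral_hasDerivAt_right (hP.intervalIntegrable _ _)
      (hP.stronglyMeasurableAtFilter _ _) hP.continuousAt
  have hQc : Continuous Q := continuous_iff_continuousAt.mpr fun t => (hQd t).continuousAt
  have hQ0 : Q 0 = 0 := by simp [hQ]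
  have hQ1 : Q 1 = 0 := by
    have h0 := h 0
    simp only [Int.cast_zero, mul_zero, zero_mul, ofReal_zero, neg_zero, Complex.exp_zero,
      mul_one] at h0
    exact h0
  have hQeq : Q 0 = Q (1:ℝ) := by rw [hQ0, hQ1]
  let F : C(UnitAddCircle, ℂ) := ⟨AddCircle.liftIco 1 0 Q,
    AddCircle.liftIco_zero_continuous hQeq hQc.continuousOn⟩
  have hcoef : ∀ n : ℤ, n ≠ 0 → fourierCoeff F n = τ * α n := by
    intro n hn
    have h1 : fourierCoeff F n
        = fourierCoeffOn (lt_add_of_pos_right (0:ℝ) (Fact.out : (0:ℝ) < 1)) Q n :=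
      fourierCoeff_liftIco_eq (T := 1) Q n
    have hQ01 : Q (0 + 1) = 0 := by rw [zero_add]; exact hQ1
    rw [h1, fourierCoeffOn_of_hasDerivAt _ hn (fun x _ => hQd x) (hP.intervalIntegrable _ _),
      hQ01, hQ0, fourierCoeffOn_eq_integral]
    have h2 : ∫ x in (0:ℝ)..(0 + 1), fourier (-n) (x : AddCircle ((0:ℝ) + 1 - 0)) • P x
        = ∫ t in (0:ℝ)..1, P t * Complex.exp (-(2 * Real.pi * n * t : ℝ) * I) := by
      rw [zero_add]
      apply intervalIntegral.integral_congr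
      intro x _
      beta_reduce
      rw [fourier_coe_apply, smul_eq_mul, mul_comm]
      congr 2
      push_cast; ring
    rw [h2, h n]
    have hn' : (n:ℂ) ≠ 0 := by exact_mod_cast hn
    have hπ : (Real.pi:ℂ) ≠ 0 := by exact_mod_cast Real.pi_ne_zero
    simp only [sub_self, mul_zero, zero_sub, sub_zero, one_smul, ofReal_one, one_mul, ofReal_zero,
      zero_add, div_one]
    field_simp
  set c : ℂ := fourierCoeff F 0 with hc
  have hfc : ∀ n : ℤ, fourierCoeff F n = τ * α n + (Pi.single (0:ℤ) (c - τ * α 0) : ℤ → ℂ) n := by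
    intro n
    rcases eq_or_ne n 0 with h0 | h0
    · subst h0; simp [hc]
    · rw [hcoef n h0, Pi.single_eq_of_ne h0, add_zero]
  have hsing : Summable (Pi.single (0:ℤ) (c - τ * α 0) : ℤ → ℂ) := by
    exact (hasSum_pi_single (0:ℤ) (c - τ * α 0)).summable
  have hsum : Summable (fourierCoeff F) := by
    have : fourierCoeff F = fun n => τ * α n + (Pi.single (0:ℤ) (c - τ * α 0) : ℤ → ℂ) n := funext hfc
    rw [this]
    exact (hα.of_norm.mul_left _).add hsing
  have hkey : ∀ x ∈ Ico (0:ℝ) 1, Q x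
      = τ * (∑' n : ℤ, α n * Complex.exp ((2 * Real.pi * n * x : ℝ) * I)) + (c - τ * α 0) := by
    intro x hx
    have h1 := has_pointwise_sum_fourier_series_of_summable hsum (x : UnitAddCircle)
    have h2 : F (x : UnitAddCircle) = Q x := by
      show AddCircle.liftIco 1 0 Q (x : AddCircle (1:ℝ)) = Q x
      apply AddCircle.liftIco_coe_apply
      simpa using hx
    rw [h2] at h1
    have h3 : (fun i : ℤ => fourierCoeff F i • fourier i (x : UnitAddCircle))
        = fun n : ℤ => τ * (α n * Complex.exp ((2 * Real.pi * n * x : ℝ) * I))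
          + (Pi.single (0:ℤ) (c - τ * α 0) : ℤ → ℂ) n := by
      funext n
      rw [hfc n, fourier_coe_apply, smul_eq_mul]
      rcases eq_or_ne n 0 with h0 | h0
      · subst h0; simp
      · rw [Pi.single_eq_of_ne h0, add_zero, add_zero, mul_assoc]
        congr 3
        push_cast; ring
    rw [h3] at h1
    have h4 : Summable (fun n : ℤ => α n * Complex.exp ((2 * Real.pi * n * x : ℝ) * I)) := by
      apply Summable.of_norm
      refine hα.congr fun n => ?_
      rw [norm_mul, Complex.norm_exp_ofReal_mul_I, mul_one]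
    have h5 := (h4.hasSum.mul_left (τ:ℂ)).add (hasSum_pi_single (0:ℤ) (c - τ * α 0))
    exact h1.unique h5
  have hz : (0:ℂ) = τ * (∑' n : ℤ, α n) + (c - τ * α 0) := by
    have h1 := hkey 0 ⟨le_rfl, one_pos⟩
    rw [hQ0] at h1
    simpa using h1
  rcases eq_or_lt_of_le ht.2 with h1 | h1
  · subst h1
    have h2 : ∀ n : ℤ, α n * Complex.exp ((2 * Real.pi * n * 1 : ℝ) * I) = α n := by
      intro n
      have : ((2 * Real.pi * n * 1 : ℝ) * I : ℂ) = n * (2 * Real.pi * I) := by push_cast; ring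
      rw [this, Complex.exp_int_mul_two_pi_mul_I, mul_one]
    simp only [h2, sub_self, mul_zero]
    exact hQ1
  · have h2 := hkey t ⟨ht.1, h1⟩
    rw [show (∫ s in (0:ℝ)..t, P s) = Q t from rfl, h2]
    linear_combination -hz

end Pool.Agent.Helper53.FT
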