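import Pool.Agent.Helper53.FT.Coef

/-! Parseval for trigonometric polynomials in two variables (packet FT-LIN). -/

set_option autoImplicit false

namespace Pool.Agent.Helper53.FT

open Complex Set Filter Pool.Agent.Helper76.FT MeasureTheory
open scoped Topology Interval

theorem int_exp (m : ℤ) : ∫ x in (0:ℝ)..1, Complex.exp ((2 * Real.pi * m * x : ℝ) * I)
    = if m = 0 then 1 else 0 := by
  split_ifs with h
  · subst h; simp
  · have hne : ((2 * Real.pi * m) * I : ℂ) ≠ 0 := by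
      have h6 : (Real.pi : ℂ) ≠ 0 := by exact_mod_cast Real.pi_ne_zero
      have h7 : (m : ℂ) ≠ 0 := by exact_mod_cast h
      simp [h6, h7, I_ne_zero]
    have h8 : ∫ x in (0:ℝ)..1, Complex.exp ((2 * Real.pi * m * x : ℝ) * I)
        = ∫ x in (0:ℝ)..1, Complex.exp (((2 * Real.pi * m) * I : ℂ) * x) := by
      apply intervalIntegral.integral_congr
      intro x _
      show Complex.exp ((2 * Real.pi * m * x : ℝ) * I)
        = Complex.exp (((2 * Real.pi * m) * I : ℂ) * x)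
      congr 1
      push_cast; ring
    rw [h8, integral_exp_mul_complex hne]
    have h9 : Complex.exp (((2 * Real.pi * m) * I : ℂ) * (1:ℝ)) = 1 := by
      have : ((2 * Real.pi * m) * I : ℂ) * (1:ℝ) = (m : ℂ) * (2 * Real.pi * I) := by
        push_cast; ring
      rw [this, Complex.exp_int_mul_two_pi_mul_I]
    rw [h9]
    simp

theorem int_ee (p q : ℤ) : ∫ t in (0:ℝ)..1, ∫ x in (0:ℝ)..1, ee p q (x:ℂ) t
    = if p = 0 ∧ q = 0 then 1 else 0 := by
  have h1 : ∀ t : ℝ, ∫ x in (0:ℝ)..1, ee p q (x:ℂ) t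
      = (if p = 0 then 1 else 0) * Complex.exp ((2 * Real.pi * q * t : ℝ) * I) := by
    intro t
    rw [← int_exp p, ← intervalIntegral.integral_mul_const]
    apply intervalIntegral.integral_congr
    intro x _
    show ee p q (x:ℂ) t = Complex.exp ((2 * Real.pi * p * x : ℝ) * I) * Complex.exp ((2 * Real.pi * q * t : ℝ) * I)
    rw [ee_split]
    congr 2
    push_cast; ring
  simp only [h1]
  rw [intervalIntegral.integral_const_mul, int_exp q]
  by_cases hp : p = 0 <;> by_cases hq : q = 0 <;> simp [hp, hq]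

theorem ee_mul_conj (k l : ℤ × ℤ) (x t : ℝ) :
    ee k.1 k.2 (x:ℂ) t * (starRingEnd ℂ) (ee l.1 l.2 (x:ℂ) t) = ee (k.1 - l.1) (k.2 - l.2) (x:ℂ) t := by
  unfold ee
  rw [← Complex.exp_conj, ← Complex.exp_add]
  congr 1
  simp only [map_mul, map_add, Complex.conj_ofReal, Complex.conj_I, map_ofNat, map_intCast]
  push_cast; ring

theorem parseval_c (B : Finset (ℤ × ℤ)) (c : ℤ × ℤ → ℂ) :
    ∫ t in (0:ℝ)..1, ∫ x in (0:ℝ)..1, ((∑ k ∈ B, c k * ee k.1 k.2 (x:ℂ) t)
      * (starRingEnd ℂ) (∑ k ∈ B, c k * ee k.1 k.2 (x:ℂ) t))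
    = ∑ k ∈ B, c k * (starRingEnd ℂ) (c k) := by
  have h1 : ∀ x t : ℝ, ((∑ k ∈ B, c k * ee k.1 k.2 (x:ℂ) t)
      * (starRingEnd ℂ) (∑ k ∈ B, c k * ee k.1 k.2 (x:ℂ) t))
      = ∑ k ∈ B, ∑ l ∈ B, (c k * (starRingEnd ℂ) (c l)) * ee (k.1 - l.1) (k.2 - l.2) (x:ℂ) t := by
    intro x t
    rw [map_sum, Finset.sum_mul_sum]
    apply Finset.sum_congr rfl
    intro k _
    apply Finset.sum_congr rfl
    intro l _
    rw [map_mul, ← ee_mul_conj]
    ring
  simp only [h1]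
  have hce : ∀ (p q : ℤ), Continuous (fun s : ℝ × ℝ => ee p q (s.2:ℂ) s.1) := by
    intro p q
    exact (continuous_ee p q).comp (by fun_prop : Continuous fun s : ℝ × ℝ => ((s.2:ℂ), s.1))
  have h2 : ∀ t : ℝ, ∫ x in (0:ℝ)..1, ∑ k ∈ B, ∑ l ∈ B,
      (c k * (starRingEnd ℂ) (c l)) * ee (k.1 - l.1) (k.2 - l.2) (x:ℂ) t
      = ∑ k ∈ B, ∑ l ∈ B, (c k * (starRingEnd ℂ) (c l))
        * ∫ x in (0:ℝ)..1, ee (k.1 - l.1) (k.2 - l.2) (x:ℂ) t := by
    intro t
    have hcx : ∀ p q : ℤ, Continuous (fun x : ℝ => ee p q (x:ℂ) t) := fun p q =>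
      (hce p q).comp (by fun_prop : Continuous fun x : ℝ => (t, x))
    rw [intervalIntegral.integral_finsetSum]
    · apply Finset.sum_congr rfl
      intro k _
      rw [intervalIntegral.integral_finsetSum]
      · apply Finset.sum_congr rfl
        intro l _
        rw [intervalIntegral.integral_const_mul]
      · intro l _
        exact (continuous_const.mul (hcx _ _)).intervalIntegrable _ _
    · intro k _
      apply Continuous.intervalIntegrable
      exact continuous_finsetSum _ fun l _ => continuous_const.mul (hcx _ _)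
  simp only [h2]
  have hct : ∀ p q : ℤ, Continuous (fun t : ℝ => ∫ x in (0:ℝ)..1, ee p q (x:ℂ) t) := fun p q =>
    intervalIntegral.continuous_parametric_intervalIntegral_of_continuous'
      (f := fun (t x : ℝ) => ee p q (x:ℂ) t) (hce p q) 0 1
  rw [intervalIntegral.integral_finsetSum]
  · apply Finset.sum_congr rfl
    intro k hk
    rw [intervalIntegral.integral_finsetSum]
    · rw [Finset.sum_eq_single k]
      · rw [intervalIntegral.integral_const_mul, int_ee]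
        simp
      · intro l _ hl
        rw [intervalIntegral.integral_const_mul, int_ee, if_neg, mul_zero]
        rintro ⟨h3, h4⟩
        apply hl
        exact Prod.ext (by omega) (by omega)
      · intro h; exact absurd hk h
    · intro l _
      exact (continuous_const.mul (hct _ _)).intervalIntegrable _ _
  · intro k _
    apply Continuous.intervalIntegrable
    exact continuous_finsetSum _ fun l _ => continuous_const.mul (hct _ _)

theorem parseval (B : Finset (ℤ × ℤ)) (c : ℤ × ℤ → ℂ) :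
    ∫ t in (0:ℝ)..1, ∫ x in (0:ℝ)..1, ‖∑ k ∈ B, c k * ee k.1 k.2 (x:ℂ) t‖ ^ 2
    = ∑ k ∈ B, ‖c k‖ ^ 2 := by
  have h := parseval_c B c
  have h1 : ∀ z : ℂ, z * (starRingEnd ℂ) z = ((‖z‖ ^ 2 : ℝ) : ℂ) := by
    intro z
    rw [Complex.mul_conj, Complex.normSq_eq_norm_sq]
  simp only [h1] at h
  have h2 : ∀ t : ℝ, ∫ x in (0:ℝ)..1, ((‖∑ k ∈ B, c k * ee k.1 k.2 (x:ℂ) t‖ ^ 2 : ℝ) : ℂ)
      = ((∫ x in (0:ℝ)..1, ‖∑ k ∈ B, c k * ee k.1 k.2 (x:ℂ) t‖ ^ 2 : ℝ) : ℂ) := fun t =>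
    intervalIntegral.integral_ofReal
  simp only [h2] at h
  rw [intervalIntegral.integral_ofReal] at h
  have h3 : ((∑ k ∈ B, ‖c k‖ ^ 2 : ℝ) : ℂ) = ∑ k ∈ B, ((‖c k‖ ^ 2 : ℝ) : ℂ) := by push_cast; rfl
  rw [← h3] at h
  exact_mod_cast h

/-- Cauchy-Schwarz on the unit square -/
theorem sq_int_le (P : ℝ → ℝ → ℝ) (hPc : Continuous (fun s : ℝ × ℝ => P s.1 s.2)) :
    (∫ t in (0:ℝ)..1, ∫ x in (0:ℝ)..1, P t x) ^ 2 ≤ ∫ t in (0:ℝ)..1, ∫ x in (0:ℝ)..1, P t x ^ 2 := by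
  have hPx : ∀ t, Continuous (P t) := fun t =>
    hPc.comp (by fun_prop : Continuous fun x : ℝ => (t, x))
  have hPc2 : Continuous (fun s : ℝ × ℝ => P s.1 s.2 ^ 2) := hPc.pow 2
  obtain ⟨X, hX⟩ : ∃ X : ℝ, X = ∫ t in (0:ℝ)..1, ∫ x in (0:ℝ)..1, P t x := ⟨_, rfl⟩
  rw [← hX]
  have h1 : ∀ t, ∫ x in (0:ℝ)..1, (P t x - X) ^ 2
      = (∫ x in (0:ℝ)..1, P t x ^ 2) - 2 * X * (∫ x in (0:ℝ)..1, P t x) + X ^ 2 := by
    intro t
    have h2 : ∀ x, (P t x - X) ^ 2 = P t x ^ 2 - 2 * X * P t x + X ^ 2 := fun x => by ring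
    simp only [h2]
    have i1 : IntervalIntegrable (fun x => P t x ^ 2) volume 0 1 :=
      ((hPx t).pow 2).intervalIntegrable _ _
    have i2 : IntervalIntegrable (fun x => 2 * X * P t x) volume 0 1 :=
      (continuous_const.mul (hPx t)).intervalIntegrable _ _
    have i3 : IntervalIntegrable (fun _ : ℝ => X ^ 2) volume 0 1 :=
      continuous_const.intervalIntegrable _ _
    rw [intervalIntegral.integral_add (i1.sub i2) i3, intervalIntegral.integral_sub i1 i2,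
      intervalIntegral.integral_const_mul, intervalIntegral.integral_const]
    simp
  have hI1 : Continuous (fun t : ℝ => ∫ x in (0:ℝ)..1, P t x) :=
    intervalIntegral.continuous_parametric_intervalIntegral_of_continuous'
      (f := fun (t x : ℝ) => P t x) hPc 0 1
  have hI2 : Continuous (fun t : ℝ => ∫ x in (0:ℝ)..1, P t x ^ 2) :=
    intervalIntegral.continuous_parametric_intervalIntegral_of_continuous'
      (f := fun (t x : ℝ) => P t x ^ 2) hPc2 0 1
  have h3 : ∫ t in (0:ℝ)..1, ∫ x in (0:ℝ)..1, (P t x - X) ^ 2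
      = (∫ t in (0:ℝ)..1, ∫ x in (0:ℝ)..1, P t x ^ 2) - 2 * X * X + X ^ 2 := by
    simp only [h1]
    have i1 : IntervalIntegrable (fun t => ∫ x in (0:ℝ)..1, P t x ^ 2) volume 0 1 :=
      hI2.intervalIntegrable _ _
    have i2 : IntervalIntegrable (fun t => 2 * X * ∫ x in (0:ℝ)..1, P t x) volume 0 1 :=
      (continuous_const.mul hI1).intervalIntegrable _ _
    have i3 : IntervalIntegrable (fun _ : ℝ => X ^ 2) volume 0 1 :=
      continuous_const.intervalIntegrable _ _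
    rw [intervalIntegral.integral_add (i1.sub i2) i3, intervalIntegral.integral_sub i1 i2,
      intervalIntegral.integral_const_mul, intervalIntegral.integral_const, ← hX]
    simp
  have h4 : 0 ≤ ∫ t in (0:ℝ)..1, ∫ x in (0:ℝ)..1, (P t x - X) ^ 2 := by
    apply intervalIntegral.integral_nonneg zero_le_one
    intro t _
    apply intervalIntegral.integral_nonneg zero_le_one
    intro x _
    positivity
  rw [h3] at h4
  nlinarith

theorem cont_poly (B : Finset (ℤ × ℤ)) (c : ℤ × ℤ → ℂ) :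
    Continuous (fun s : ℝ × ℝ => ∑ k ∈ B, c k * ee k.1 k.2 (s.2:ℂ) s.1) := by
  apply continuous_finsetSum
  intro k _
  exact continuous_const.mul ((continuous_ee k.1 k.2).comp
    (by fun_prop : Continuous fun s : ℝ × ℝ => ((s.2:ℂ), s.1)))

/-- `L¹` bound by the `ℓ²` norm of the coefficients -/
theorem l1_le_l2 (B : Finset (ℤ × ℤ)) (c : ℤ × ℤ → ℂ) :
    ∫ t in (0:ℝ)..1, ∫ x in (0:ℝ)..1, ‖∑ k ∈ B, c k * ee k.1 k.2 (x:ℂ) t‖
    ≤ √(∑ k ∈ B, ‖c k‖ ^ 2) := by
  apply Real.le_sqrt_of_sq_le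
  rw [← parseval B c]
  exact sq_int_le (fun t x => ‖∑ k ∈ B, c k * ee k.1 k.2 (x:ℂ) t‖) (cont_poly B c).norm

/-- the mean of a product -/
theorem mean_l1 (w P : ℂ → ℝ → ℂ) (hP : Continuous (fun s : ℝ × ℝ => P (s.2:ℂ) s.1)) (M : ℝ)
    (hw : ∀ x ∈ Icc (0:ℝ) 1, ∀ t ∈ Icc (0:ℝ) 1, ‖w (x:ℂ) t‖ ≤ M) :
    ‖fco (fun z t => w z t * P z t) 0 0‖
      ≤ M * ∫ t in (0:ℝ)..1, ∫ x in (0:ℝ)..1, ‖P (x:ℂ) t‖ := by
  have hPx : ∀ t, Continuous (fun x : ℝ => P (x:ℂ) t) := fun t =>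
    hP.comp (by fun_prop : Continuous fun x : ℝ => (t, x))
  have hI1 : Continuous (fun t : ℝ => ∫ x in (0:ℝ)..1, ‖P (x:ℂ) t‖) :=
    intervalIntegral.continuous_parametric_intervalIntegral_of_continuous'
      (f := fun (t x : ℝ) => ‖P (x:ℂ) t‖) hP.norm 0 1
  rw [fco_eq, ← intervalIntegral.integral_const_mul]
  apply intervalIntegral.norm_integral_le_of_norm_le zero_le_one
  · filter_upwards with t ht
    rw [norm_mul, norm_exp_neg, mul_one]
    unfold cx
    rw [← intervalIntegral.integral_const_mul]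
    apply intervalIntegral.norm_integral_le_of_norm_le zero_le_one
    · filter_upwards with x hx
      rw [norm_mul, norm_exp_neg, mul_one, norm_mul]
      exact mul_le_mul_of_nonneg_right (hw x ⟨hx.1.le, hx.2⟩ t ⟨ht.1.le, ht.2⟩) (norm_nonneg _)
    · exact (continuous_const.mul (hPx t).norm).intervalIntegrable _ _
  · exact (continuous_const.mul hI1).intervalIntegrable _ _

/-- the bound for the mean of `w * Φ` -/
theorem mean_bd (B : Finset (ℤ × ℤ)) (c : ℤ × ℤ → ℂ) (w : ℂ → ℝ → ℂ) (M : ℝ)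
    (hw : ∀ x ∈ Icc (0:ℝ) 1, ∀ t ∈ Icc (0:ℝ) 1, ‖w (x:ℂ) t‖ ≤ M) :
    ‖fco (fun z t => w z t * ∑ k ∈ B, c k * ee k.1 k.2 z t) 0 0‖ ≤ M * √(∑ k ∈ B, ‖c k‖ ^ 2) := by
  have hM : 0 ≤ M := (norm_nonneg _).trans (hw 0 ⟨le_rfl, zero_le_one⟩ 0 ⟨le_rfl, zero_le_one⟩)
  exact (mean_l1 w (fun z t => ∑ k ∈ B, c k * ee k.1 k.2 z t) (cont_poly B c) M hw).trans
    (mul_le_mul_of_nonneg_left (l1_le_l2 B c) hM)

end Pool.Agent.Helper53.FT
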