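import Pool.Agent.Helper53.FT.Space
import Pool.Agent.Helper53.FT.Pars

/-! The linear problem from the Galerkin approximations (packet FT-LIN). -/

set_option autoImplicit false

namespace Pool.Agent.Helper53.FT

open Complex Set Filter Pool.Agent.Helper76.FT MeasureTheory
open scoped Topology Interval

/-- clamp to the unit interval -/
noncomputable def cl (t : ℝ) : ℝ := max 0 (min 1 t)

theorem cl_mem (t : ℝ) : cl t ∈ Icc (0:ℝ) 1 := by
  unfold cl
  exact ⟨le_max_left _ _, max_le zero_le_one (min_le_left _ _)⟩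

theorem cl_eq {t : ℝ} (ht : t ∈ Icc (0:ℝ) 1) : cl t = t := by
  unfold cl
  rw [min_eq_right ht.2, max_eq_right ht.1]

theorem continuous_cl : Continuous cl := by
  unfold cl; fun_prop

/-- the right hand side -/
noncomputable def hh (w g : ℂ → ℝ → ℂ) (b : ℤ × ℤ → ℂ) (z : ℂ) (t : ℝ) : ℂ :=
  g z (cl t) - w z (cl t) * PhiS b z t

theorem contOn_cl {f : ℂ → ℝ → ℂ} {ρ r : ℝ} (hr : r ≤ ρ) (hf : SH f ρ) :
    ContinuousOn (fun q : ℂ × ℝ => f q.1 (cl q.2)) (Str r ×ˢ univ) := by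
  have h := hf.cont.comp (f := fun q : ℂ × ℝ => (q.1, cl q.2)) (s := Str r ×ˢ univ)
    (by have := continuous_cl; fun_prop) (fun q hq => ⟨lt_of_lt_of_le hq.1 hr, cl_mem _⟩)
  exact h

section
variable {w g : ℂ → ℝ → ℂ} {b : ℤ × ℤ → ℂ} {ρ r : ℝ}

theorem contOn_hh (hr : r ≤ ρ) (hw : SH w ρ) (hg : SH g ρ)
    (hs : Summable (fun k => vv r k * ‖b k‖)) :
    ContinuousOn (fun q : ℂ × ℝ => hh w g b q.1 q.2) (Str r ×ˢ univ) :=
  (contOn_cl hr hg).sub ((contOn_cl hr hw).mul (contOn_PhiS hs))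

theorem diffOn_hh (hr : r ≤ ρ) (hw : SH w ρ) (hg : SH g ρ)
    (hs : Summable (fun k => vv r k * ‖b k‖)) (t : ℝ) :
    DifferentiableOn ℂ (fun z => hh w g b z t) (Str r) := by
  have hsub : Str r ⊆ Str ρ := fun z hz => lt_of_lt_of_le hz hr
  exact ((hg.hol _ (cl_mem t)).mono hsub).sub
    (((hw.hol _ (cl_mem t)).mono hsub).mul (diffOn_PhiS hs t))

theorem hh_per (hr : r ≤ ρ) (hw : SH w ρ) (hg : SH g ρ) (z : ℂ) (hz : z ∈ Str r) (t : ℝ) :
    hh w g b (z + 1) t = hh w g b z t := by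
  have hz' : z ∈ Str ρ := lt_of_lt_of_le hz hr
  unfold hh
  rw [hg.per z hz' _ (cl_mem t), hw.per z hz' _ (cl_mem t), PhiS_per]

end

theorem fco_neg (f : ℂ → ℝ → ℂ) (m n : ℤ) : fco (fun z t => - f z t) m n = - fco f m n := by
  unfold fco
  rw [← intervalIntegral.integral_neg]
  apply intervalIntegral.integral_congr
  intro t _
  show ∫ x in (0:ℝ)..1, - f (x : ℂ) t * ee (-m) (-n) (x : ℂ) t
    = - ∫ x in (0:ℝ)..1, f (x : ℂ) t * ee (-m) (-n) (x : ℂ) t
  rw [← intervalIntegral.integral_neg]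
  apply intervalIntegral.integral_congr
  intro x _
  show - f (x : ℂ) t * ee (-m) (-n) (x : ℂ) t = - (f (x : ℂ) t * ee (-m) (-n) (x : ℂ) t)
  ring

theorem WW_pos (r τ : ℝ) (k : ℤ × ℤ) (hk : k.1 ≠ 0) : 0 < WW r τ k := by
  unfold WW
  have : (k.1:ℝ) ≠ 0 := by exact_mod_cast hk
  positivity

theorem WW_ge (r τ : ℝ) (hr : 0 ≤ r) (k : ℤ × ℤ) : (k.1:ℝ) ^ 2 ≤ WW r τ k := by
  unfold WW
  have h1 : (1:ℝ) ≤ Real.exp (4 * Real.pi * r * |(k.1 : ℝ)|) := by
    apply Real.one_le_exp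
    have := Real.pi_pos
    positivity
  have h2 : (k.1:ℝ) ^ 2 ≤ (k.1:ℝ) ^ 2 + τ ^ 2 * (k.2:ℝ) ^ 2 := by
    have : 0 ≤ τ ^ 2 * (k.2:ℝ) ^ 2 := by positivity
    linarith
  calc (k.1:ℝ) ^ 2 = 1 * (k.1:ℝ) ^ 2 := (one_mul _).symm
    _ ≤ _ := mul_le_mul h1 h2 (by positivity) (Real.exp_pos _).le

/-- the basic constant -/
noncomputable def S0 : ℝ := ∑' k : ℤ × ℤ, (1 / (k.1:ℝ) ^ 2) * (1 / (1 + (k.2:ℝ) ^ 2))

theorem S0_nonneg : 0 ≤ S0 := tsum_nonneg fun k => by positivity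

theorem qq_sum_le (δ : ℝ) (s : Finset (ℤ × ℤ)) : ∑ k ∈ s, qq δ k ≤ S0 / δ ^ 4 := by
  have h := (summable_qq δ).sum_le_tsum s (fun k _ => qq_nonneg δ k)
  refine h.trans (le_of_eq ?_)
  unfold qq S0
  rw [tsum_mul_left]
  ring

/-- the `ℓ¹` bound -/
theorem l1_bd (ρ δ τ G C : ℝ) (hδ : 0 < δ) (hτ : 1 ≤ τ) (hG : 0 ≤ G) (hC : 0 ≤ C)
    (b : ℤ × ℤ → ℂ) (hE : ∀ s : Finset (ℤ × ℤ), ∑ k ∈ s, WW (ρ - δ / 2) τ k * ‖b k‖ ^ 2 ≤ C * G ^ 2) :
    Summable (fun k => vv (ρ - δ) k * ‖b k‖) ∧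
      ∑' k, vv (ρ - δ) k * ‖b k‖ ≤ √(S0 * C) * G / δ ^ 2 := by
  have h := cs_tsum (WW (ρ - δ / 2) τ) (vv (ρ - δ)) (qq δ) (WW_nonneg _ _) (vv_nonneg _) (qq_nonneg _)
    (vv_le ρ δ τ hδ hτ) b (C * G ^ 2) (S0 / δ ^ 4) hE (qq_sum_le δ)
  refine ⟨h.1, h.2.trans (le_of_eq ?_)⟩
  have h1 : S0 / δ ^ 4 * (C * G ^ 2) = (S0 * C) * (G / δ ^ 2) ^ 2 := by
    field_simp
  rw [h1, Real.sqrt_mul (mul_nonneg S0_nonneg hC), Real.sqrt_sq (by positivity)]
  ring

/-- from Fourier coefficients to the solution of the linear problem -/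
theorem build (ρ δ τ G C M : ℝ) (hδ : 0 < δ) (hδρ : δ < ρ) (hρ : ρ ≤ 1) (hτ : 1 ≤ τ) (hG : 0 ≤ G)
    (hC : 0 < C) (hM : 0 < M) (w g : ℂ → ℝ → ℂ) (hw : SH w ρ) (hg : SH g ρ)
    (hbd : ∀ z ∈ Str ρ, ∀ t ∈ Icc (0:ℝ) 1, ‖w z t‖ ≤ M ∧ ‖g z t‖ ≤ G)
    (a : ℤ × ℤ → ℂ) (ha0 : ∀ k, k.1 = 0 → a k = 0)
    (hs : Summable (fun k => vv (ρ - δ) k * ‖a k‖)) (L : ℝ)
    (hL : ∑' k, vv (ρ - δ) k * ‖a k‖ ≤ L)
    (hGal : ∀ m n : ℤ, m ≠ 0 → fco (hh w g a) m n = τ * (2 * Real.pi * I * n) * a (m, n)) :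
    ∃ φ : ℂ → ℝ → ℂ, LSol φ w g (fco (hh w g a) 0 0) τ (ρ - δ) ∧
      ∀ z ∈ Str (ρ - δ), ∀ t ∈ Icc (0:ℝ) 1, ‖dz φ z t‖ ≤ L ∧
        ‖φ z t‖ ≤ L + (G + M * L) + ‖fco (hh w g a) 0 0‖ := by
  have hr : 0 < ρ - δ := by linarith
  have hrρ : ρ - δ ≤ ρ := by linarith
  have hτ0 : 0 < τ := by linarith
  have hτc : (τ:ℂ) ≠ 0 := by exact_mod_cast hτ0.ne'
  have hL0 : 0 ≤ L := (tsum_nonneg fun k => mul_nonneg (vv_nonneg _ k) (norm_nonneg _)).trans hL
  have hhc := contOn_hh hrρ hw hg hs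
  have hhd := diffOn_hh hrρ hw hg hs
  have hhp := hh_per (b := a) hrρ hw hg
  have hhr : Continuous (fun q : ℝ × ℝ => hh w g a (q.1 : ℂ) q.2) :=
    hhc.comp_continuous (f := fun q : ℝ × ℝ => ((q.1 : ℂ), q.2)) (by fun_prop)
      (fun q => ⟨real_mem_Str hr q.1, mem_univ _⟩)
  set e : ℂ := fco (hh w g a) 0 0 with he
  have hcx := continuous_cx _ hhr 0
  have hcxe : Continuous (fun s => cx (hh w g a) 0 s - e) := hcx.sub continuous_const
  have hprim : ∀ t, HasDerivAt (fun t => ∫ s in (0:ℝ)..t, (cx (hh w g a) 0 s - e))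
      (cx (hh w g a) 0 t - e) t := fun t =>
    intervalIntegral.integral_hasDerivAt_right (hcxe.intervalIntegrable _ _)
      (hcxe.stronglyMeasurableAtFilter _ _) hcxe.continuousAt
  have hprimc : Continuous (fun t => ∫ s in (0:ℝ)..t, (cx (hh w g a) 0 s - e)) :=
    continuous_iff_continuousAt.mpr fun t => (hprim t).continuousAt
  have hint1 : ∫ s in (0:ℝ)..1, cx (hh w g a) 0 s = e := by
    rw [he, fco_eq]
    apply intervalIntegral.integral_congr
    intro s _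
    simp
  have hsplit : ∀ t : ℝ, ∫ s in (0:ℝ)..t, (cx (hh w g a) 0 s - e)
      = (∫ s in (0:ℝ)..t, cx (hh w g a) 0 s) - t * e := by
    intro t
    rw [intervalIntegral.integral_sub (hcx.intervalIntegrable _ _)
      (continuous_const.intervalIntegrable _ _), intervalIntegral.integral_const]
    simp
  let φ : ℂ → ℝ → ℂ := fun z t =>
    PsiS a z t + (1 / τ) * ∫ s in (0:ℝ)..t, (cx (hh w g a) 0 s - e)
  have hdzφ : ∀ z ∈ Str (ρ - δ), ∀ t : ℝ, dz φ z t = PhiS a z t := by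
    intro z hz t
    rw [← dz_PsiS ha0 hs hz t]
    unfold dz
    show deriv (fun z' => PsiS a z' t + (1 / τ) * ∫ s in (0:ℝ)..t, (cx (hh w g a) 0 s - e)) z = _
    rw [deriv_add_const]
  have hbdcx : ∀ s ∈ Icc (0:ℝ) 1, ‖cx (hh w g a) 0 s‖ ≤ G + M * L := by
    intro s hs'
    apply norm_cx_le
    intro x _
    unfold hh
    have h1 := (hbd x (real_mem_Str (by linarith) x) (cl s) (cl_mem s))
    have h2 : ‖PhiS a (x:ℂ) s‖ ≤ L :=
      (norm_PhiS_le hs (le_of_lt (real_mem_Str hr x)) s).trans hL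
    refine (norm_sub_le _ _).trans ?_
    rw [norm_mul]
    exact add_le_add h1.2 (mul_le_mul h1.1 h2 (norm_nonneg _) hM.le)
  refine ⟨φ, ⟨⟨?_, ?_, ?_⟩, ?_, ?_⟩, ?_⟩
  · intro t _
    exact (diffOn_PsiS ha0 hs t).add_const _
  · apply ContinuousOn.add
    · exact (contOn_PsiS ha0 hs).mono (prod_mono Subset.rfl (subset_univ _))
    · exact (continuous_const.mul (hprimc.comp continuous_snd)).continuousOn
  · intro z _ t _
    show PsiS a (z + 1) t + _ = PsiS a z t + _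
    rw [PsiS_per]
  · intro z _
    show PsiS a z 1 + _ = PsiS a z 0 + _
    rw [PsiS_close, hsplit, hsplit, hint1]
    simp
  · intro z hz t ht
    have hzc : Continuous (fun s : ℝ => hh w g a z s) :=
      hhc.comp_continuous (f := fun s : ℝ => (z, s)) (by fun_prop) (fun s => ⟨hz, mem_univ _⟩)
    have hzce : Continuous (fun s : ℝ => hh w g a z s - e) := hzc.sub continuous_const
    have h1 : ∀ s ∈ Icc (0:ℝ) 1, φ z s
        = φ z 0 + (1 / τ) * ∫ u in (0:ℝ)..s, (hh w g a z u - e) := by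
      intro s hs'
      have h2 := int_eq (τ := τ) ha0 hs (hh w g a) hhc hhd hhp hGal z hz s hs'
      have h3 : ∫ u in (0:ℝ)..s, (hh w g a z u - e) = (∫ u in (0:ℝ)..s, hh w g a z u) - s * e := by
        rw [intervalIntegral.integral_sub (hzc.intervalIntegrable _ _)
          (continuous_const.intervalIntegrable _ _), intervalIntegral.integral_const]
        simp
      show PsiS a z s + (1 / τ) * ∫ s in (0:ℝ)..s, (cx (hh w g a) 0 s - e)
        = (PsiS a z 0 + (1 / τ) * ∫ s in (0:ℝ)..0, (cx (hh w g a) 0 s - e)) + _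
      rw [h3, h2, hsplit, hsplit]
      simp only [intervalIntegral.integral_same, ofReal_zero, zero_mul, sub_zero, mul_zero, add_zero]
      field_simp
      ring
    have h4 : HasDerivAt (fun s => φ z 0 + (1 / (τ:ℂ)) * ∫ u in (0:ℝ)..s, (hh w g a z u - e))
        ((1 / (τ:ℂ)) * (hh w g a z t - e)) t := by
      apply HasDerivAt.const_add
      apply HasDerivAt.const_mul
      exact intervalIntegral.integral_hasDerivAt_right (hzce.intervalIntegrable _ _)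
        (hzce.stronglyMeasurableAtFilter _ _) hzce.continuousAt
    have h5 : (1 / (τ:ℂ)) * (hh w g a z t - e) = (g z t - w z t * dz φ z t - e) / τ := by
      rw [hdzφ z hz t]
      unfold hh
      rw [cl_eq ht]
      ring
    rw [← h5]
    exact h4.hasDerivWithinAt.congr (fun s hs' => h1 s hs') (h1 t ht)
  · intro z hz t ht
    have hzle : |z.im| ≤ ρ - δ := le_of_lt hz
    refine ⟨?_, ?_⟩
    · rw [hdzφ z hz t]
      exact (norm_PhiS_le hs hzle t).trans hL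
    · show ‖PsiS a z t + (1 / τ) * ∫ s in (0:ℝ)..t, (cx (hh w g a) 0 s - e)‖ ≤ _
      have h1 : ‖PsiS a z t‖ ≤ L := (norm_PsiS_le ha0 hs hzle t).trans hL
      have h2 : ‖∫ s in (0:ℝ)..t, (cx (hh w g a) 0 s - e)‖ ≤ ((G + M * L) + ‖e‖) * |t - 0| := by
        apply intervalIntegral.norm_integral_le_of_norm_le_const
        intro s hs'
        rw [uIoc_of_le ht.1] at hs'
        refine (norm_sub_le _ _).trans (add_le_add (hbdcx s ⟨hs'.1.le, hs'.2.trans ht.2⟩) le_rfl)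
      have h3 : ((G + M * L) + ‖e‖) * |t - 0| ≤ (G + M * L) + ‖e‖ := by
        rw [sub_zero, abs_of_nonneg ht.1]
        have : 0 ≤ (G + M * L) + ‖e‖ := by positivity
        nlinarith [ht.2]
      have h4 : ‖(1 / (τ:ℂ))‖ ≤ 1 := by
        rw [norm_div, norm_one, Complex.norm_real, Real.norm_eq_abs, abs_of_pos hτ0]
        rw [div_le_one hτ0]; exact hτ
      refine (norm_add_le _ _).trans ?_
      rw [norm_mul]
      have h5 : ‖(1 / (τ:ℂ))‖ * ‖∫ s in (0:ℝ)..t, (cx (hh w g a) 0 s - e)‖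
          ≤ 1 * ((G + M * L) + ‖e‖) :=
        mul_le_mul h4 (h2.trans h3) (norm_nonneg _) zero_le_one
      linarith

theorem ft_lin : GGal → GLin := by
  classical
  intro hGal μ M hμ hM
  obtain ⟨C, hC, hGal⟩ := hGal μ M hμ hM
  set K1 : ℝ := √(S0 * C) with hK1
  have hK10 : 0 ≤ K1 := Real.sqrt_nonneg _
  have hsC : 0 ≤ √C := Real.sqrt_nonneg _
  have hπ := Real.pi_pos
  refine ⟨K1 + 1 + M * K1 + 1 + M * (2 * Real.pi * √C), by positivity, ?_⟩
  intro ρ δ τ G hδ hδρ hρ hτ hG w g hw hg hbd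
  have hr : 0 < ρ - δ := by linarith
  have hrρ : ρ - δ ≤ ρ := by linarith
  have hρ' : 0 < ρ - δ / 2 := by linarith
  have hbd2 : ∀ z ∈ Str ρ, ∀ t ∈ Icc (0:ℝ) 1, ‖w z t‖ ≤ M ∧ ‖g z t‖ ≤ G := fun z hz t ht =>
    (hbd z hz t ht).2
  have hex : ∀ A : Finset (ℤ × ℤ), ∃ a : ℤ × ℤ → ℂ,
      (∀ k ∈ A.filter (fun k => k.1 ≠ 0), τ * (2 * Real.pi * I * k.2) * a k
        + fco (fun z t => w z t * dz (tp (A.filter (fun k => k.1 ≠ 0)) a) z t - g z t) k.1 k.2 = 0) ∧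
      ∑ k ∈ A.filter (fun k => k.1 ≠ 0), Real.exp (4 * Real.pi * (ρ - δ / 2) * |(k.1 : ℝ)|)
        * (((k.1 : ℝ))^2 + τ^2 * ((k.2 : ℝ))^2) * ‖a k‖^2 ≤ C * G^2 := fun A =>
    hGal ρ (ρ - δ / 2) τ G hρ' (by linarith) hτ hG w g hw hg hbd (A.filter (fun k => k.1 ≠ 0))
      (fun k hk => (Finset.mem_filter.mp hk).2)
  choose aA haA haE using hex
  -- extend by zero
  let b : Finset (ℤ × ℤ) → ℤ × ℤ → ℂ := fun A k =>
    if k ∈ A.filter (fun k => k.1 ≠ 0) then aA A k else 0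
  have hbin : ∀ A k, k ∈ A.filter (fun k => k.1 ≠ 0) → b A k = aA A k := fun A k hk => if_pos hk
  have hbout : ∀ A k, k ∉ A.filter (fun k => k.1 ≠ 0) → b A k = 0 := fun A k hk => if_neg hk
  have hb0 : ∀ A k, k.1 = 0 → b A k = 0 := by
    intro A k hk
    apply hbout
    intro h
    exact (Finset.mem_filter.mp h).2 hk
  have hE : ∀ A, ∀ s : Finset (ℤ × ℤ), ∑ k ∈ s, WW (ρ - δ / 2) τ k * ‖b A k‖ ^ 2 ≤ C * G ^ 2 := by
    intro A s
    refine le_trans ?_ (haE A)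
    have h1 : ∑ k ∈ s, WW (ρ - δ / 2) τ k * ‖b A k‖ ^ 2
        = ∑ k ∈ s with k ∈ A.filter (fun k => k.1 ≠ 0), WW (ρ - δ / 2) τ k * ‖b A k‖ ^ 2 := by
      rw [Finset.sum_filter]
      apply Finset.sum_congr rfl
      intro k _
      split_ifs with h
      · rfl
      · rw [hbout A k h]; simp
    rw [h1]
    have h2 : ∑ k ∈ s with k ∈ A.filter (fun k => k.1 ≠ 0), WW (ρ - δ / 2) τ k * ‖b A k‖ ^ 2
        ≤ ∑ k ∈ A.filter (fun k => k.1 ≠ 0), WW (ρ - δ / 2) τ k * ‖b A k‖ ^ 2 := by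
      apply Finset.sum_le_sum_of_subset_of_nonneg
      · intro k hk
        exact (Finset.mem_filter.mp hk).2
      · intro k _ _
        exact mul_nonneg (WW_nonneg _ _ k) (by positivity)
    refine h2.trans (le_of_eq ?_)
    apply Finset.sum_congr rfl
    intro k hk
    rw [hbin A k hk]
    rfl
  -- pointwise limit along an ultrafilter
  let U : Ultrafilter (Finset (ℤ × ℤ)) := Ultrafilter.of atTop
  have hU : (U : Filter (Finset (ℤ × ℤ))) ≤ atTop := Ultrafilter.of_le atTop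
  have hpt : ∀ A k, ‖b A k‖ ≤ √(C * G ^ 2 / WW (ρ - δ / 2) τ k) := by
    intro A k
    rcases eq_or_ne k.1 0 with h0 | h0
    · rw [hb0 A k h0, norm_zero]; exact Real.sqrt_nonneg _
    · apply Real.le_sqrt_of_sq_le
      rw [le_div_iff₀ (WW_pos _ _ k h0), mul_comm]
      have := hE A {k}
      simpa using this
  obtain ⟨a, ha⟩ := exists_lim U b _ hpt
  have ha0 : ∀ k, k.1 = 0 → a k = 0 := by
    intro k hk
    have h1 : Tendsto (fun A => b A k) U (𝓝 0) := by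
      have : (fun A => b A k) = fun _ => 0 := funext fun A => hb0 A k hk
      rw [this]; exact tendsto_const_nhds
    exact tendsto_nhds_unique (ha k) h1
  have hEa := lim_bd (WW (ρ - δ / 2) τ) b a (C * G ^ 2) hE ha
  have hlim : Tendsto (fun A => ∑' k, vv (ρ - δ) k * ‖b A k - a k‖) U (𝓝 0) :=
    l1_lim (WW (ρ - δ / 2) τ) (vv (ρ - δ)) (qq δ) (WW_nonneg _ _) (vv_nonneg _) (qq_nonneg _)
      (vv_le ρ δ τ hδ hτ) (summable_qq δ) b a (C * G ^ 2) hE ha
  have hsA := fun A => (l1_bd ρ δ τ G C hδ hτ hG hC.le (b A) (hE A)).1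
  obtain ⟨hsa, hLa⟩ := l1_bd ρ δ τ G C hδ hτ hG hC.le a hEa
  have hcont : ∀ c : ℤ × ℤ → ℂ, Summable (fun k => vv (ρ - δ) k * ‖c k‖) →
      Continuous (fun q : ℝ × ℝ => hh w g c (q.1 : ℂ) q.2) := fun c hc =>
    (contOn_hh hrρ hw hg hc).comp_continuous (f := fun q : ℝ × ℝ => ((q.1 : ℂ), q.2)) (by fun_prop)
      (fun q => ⟨real_mem_Str hr q.1, mem_univ _⟩)
  -- limit of the coefficients
  have hfl : ∀ m n : ℤ, Tendsto (fun A => fco (hh w g (b A)) m n) U (𝓝 (fco (hh w g a) m n)) := by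
    intro m n
    apply fco_tendsto (fun A => hh w g (b A)) (hh w g a)
      (fun A => M * ∑' k, vv (ρ - δ) k * ‖b A k - a k‖) (fun A => hcont _ (hsA A)) (hcont _ hsa)
    · intro A x _ t _
      have h1 : hh w g (b A) (x:ℂ) t - hh w g a (x:ℂ) t
          = - (w x (cl t) * (PhiS (b A) x t - PhiS a x t)) := by unfold hh; ring
      rw [h1, norm_neg, norm_mul]
      apply mul_le_mul (hbd2 x (real_mem_Str (by linarith) x) (cl t) (cl_mem t)).1
        (PhiS_sub_le (hsA A) hsa (le_of_lt (real_mem_Str hr x)) t) (norm_nonneg _) hM.le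
    · simpa using hlim.const_mul M
  -- the Galerkin equations
  have hGalA : ∀ A, ∀ k ∈ A.filter (fun k => k.1 ≠ 0),
      fco (hh w g (b A)) k.1 k.2 = τ * (2 * Real.pi * I * k.2) * b A k := by
    intro A k hk
    have h1 := haA A k hk
    have h2 : fco (fun z t => w z t * dz (tp (A.filter (fun k => k.1 ≠ 0)) (aA A)) z t - g z t) k.1 k.2
        = - fco (hh w g (b A)) k.1 k.2 := by
      rw [← fco_neg]
      apply fco_congr
      intro x t ht
      show w x t * dz (tp (A.filter (fun k => k.1 ≠ 0)) (aA A)) x t - g x t = - hh w g (b A) x t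
      rw [dz_tp _ (aA A) (b A) (hbin A) (hbout A)]
      unfold hh
      rw [cl_eq ht]
      ring
    rw [h2] at h1
    rw [hbin A k hk]
    linear_combination -h1
  have hGala : ∀ m n : ℤ, m ≠ 0 → fco (hh w g a) m n = τ * (2 * Real.pi * I * n) * a (m, n) := by
    intro m n hm
    have h1 : Tendsto (fun A => τ * (2 * Real.pi * I * n) * b A (m, n)) U
        (𝓝 (τ * (2 * Real.pi * I * n) * a (m, n))) := (ha (m, n)).const_mul _
    refine tendsto_nhds_unique ((hfl m n).congr' ?_) h1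
    have h2 : ∀ᶠ A in (U : Filter (Finset (ℤ × ℤ))), {(m, n)} ≤ A := hU (eventually_ge_atTop _)
    filter_upwards [h2] with A hA
    apply hGalA A (m, n)
    rw [Finset.mem_filter]
    exact ⟨hA (Finset.mem_singleton_self _), hm⟩
  -- the bound for `e`
  have heA : ∀ A, ‖fco (hh w g (b A)) 0 0‖ ≤ G + M * (2 * Real.pi * √C * G) := by
    intro A
    have hphi : ∀ (z : ℂ) (t : ℝ), PhiS (b A) z t
        = ∑ k ∈ A.filter (fun k => k.1 ≠ 0), ((2 * Real.pi * I * k.1) * b A k) * ee k.1 k.2 z t := by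
      intro z t
      unfold PhiS
      apply tsum_eq_sum
      intro k hk
      rw [hbout A k hk]; ring
    have hg1 : Continuous (fun q : ℝ × ℝ => g (q.1 : ℂ) (cl q.2)) :=
      (contOn_cl hrρ hg).comp_continuous (f := fun q : ℝ × ℝ => ((q.1 : ℂ), q.2)) (by fun_prop)
        (fun q => ⟨real_mem_Str hr q.1, mem_univ _⟩)
    have hw1 : Continuous (fun q : ℝ × ℝ => w (q.1 : ℂ) (cl q.2)) :=
      (contOn_cl hrρ hw).comp_continuous (f := fun q : ℝ × ℝ => ((q.1 : ℂ), q.2)) (by fun_prop)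
        (fun q => ⟨real_mem_Str hr q.1, mem_univ _⟩)
    have hP1 : Continuous (fun q : ℝ × ℝ => PhiS (b A) (q.1 : ℂ) q.2) :=
      (contOn_PhiS (hsA A)).comp_continuous (f := fun q : ℝ × ℝ => ((q.1 : ℂ), q.2)) (by fun_prop)
        (fun q => ⟨real_mem_Str hr q.1, mem_univ _⟩)
    have h1 : fco (hh w g (b A)) 0 0 = fco (fun z t => g z (cl t)) 0 0
        - fco (fun z t => w z (cl t) * PhiS (b A) z t) 0 0 := by
      rw [← fco_sub _ _ hg1 (hw1.mul hP1)]
      rfl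
    rw [h1]
    refine (norm_sub_le _ _).trans (add_le_add ?_ ?_)
    · apply norm_fco_le
      intro x _ t _
      exact (hbd2 x (real_mem_Str (by linarith) x) (cl t) (cl_mem t)).2
    · simp only [hphi]
      refine (mean_bd _ (fun k => (2 * Real.pi * I * k.1) * b A k) (fun z t => w z (cl t)) M
        (fun x _ t _ => (hbd2 x (real_mem_Str (by linarith) x) (cl t) (cl_mem t)).1)).trans ?_
      apply mul_le_mul_of_nonneg_left _ hM.le
      apply Real.sqrt_le_iff.mpr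
      refine ⟨by positivity, ?_⟩
      have h2 : ∀ k ∈ A.filter (fun k => k.1 ≠ 0), ‖(2 * Real.pi * I * k.1) * b A k‖ ^ 2
          ≤ 4 * Real.pi ^ 2 * (WW (ρ - δ / 2) τ k * ‖b A k‖ ^ 2) := by
        intro k _
        have h3 : ‖(2 * (Real.pi:ℂ) * I * k.1)‖ = 2 * Real.pi * |(k.1:ℝ)| := by
          rw [norm_mul, norm_mul, norm_mul, Complex.norm_I, mul_one, Complex.norm_intCast]
          simp [abs_of_pos Real.pi_pos]
        rw [norm_mul, h3]
        have h4 := WW_ge (ρ - δ / 2) τ hρ'.le k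
        have h5 : (2 * Real.pi * |(k.1:ℝ)| * ‖b A k‖) ^ 2
            = 4 * Real.pi ^ 2 * ((k.1:ℝ) ^ 2 * ‖b A k‖ ^ 2) := by
          rw [mul_pow, mul_pow, mul_pow, sq_abs]; ring
        rw [h5]
        apply mul_le_mul_of_nonneg_left _ (by positivity)
        exact mul_le_mul_of_nonneg_right h4 (by positivity)
      refine (Finset.sum_le_sum h2).trans ?_
      rw [← Finset.mul_sum]
      refine (mul_le_mul_of_nonneg_left (hE A _) (by positivity)).trans (le_of_eq ?_)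
      have h6 : (2 * Real.pi * √C * G) ^ 2 = 4 * Real.pi ^ 2 * (√C ^ 2 * G ^ 2) := by ring
      rw [h6, Real.sq_sqrt hC.le]
  have he : ‖fco (hh w g a) 0 0‖ ≤ G + M * (2 * Real.pi * √C * G) :=
    le_of_tendsto (hfl 0 0).norm (Eventually.of_forall heA)
  obtain ⟨φ, hφ, hφb⟩ := build ρ δ τ G C M hδ hδρ hρ hτ hG hC hM w g hw hg hbd2 a ha0 hsa _ hLa hGala
  have hδ1 : δ ≤ 1 := by linarith
  have hδ2 : δ ^ 2 ≤ 1 := pow_le_one₀ hδ.le hδ1
  have hGδ : G ≤ G / δ ^ 2 := by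
    rw [le_div_iff₀ (by positivity)]
    nlinarith
  have hGδ0 : 0 ≤ G / δ ^ 2 := by positivity
  refine ⟨φ, _, hφ, ?_, ?_⟩
  · refine he.trans ?_
    have : 0 ≤ (K1 + 1 + M * K1) * G := by positivity
    nlinarith
  · intro z hz t ht
    obtain ⟨h1, h2⟩ := hφb z hz t ht
    have h3 : K1 * G / δ ^ 2 = K1 * (G / δ ^ 2) := by ring
    have h4 : (K1 + 1 + M * K1 + 1 + M * (2 * Real.pi * √C)) * G / δ ^ 2
        = (K1 + 1 + M * K1 + 1 + M * (2 * Real.pi * √C)) * (G / δ ^ 2) := by ring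
    rw [h3] at h1 h2
    rw [h4]
    set X := G / δ ^ 2 with hX
    have h5 : 0 ≤ M * K1 * X := by positivity
    have h6 : 0 ≤ M * (2 * Real.pi * √C) * X := by positivity
    have h7 : M * (2 * Real.pi * √C * G) ≤ M * (2 * Real.pi * √C) * X := by
      have : M * (2 * Real.pi * √C * G) = M * (2 * Real.pi * √C) * G := by ring
      rw [this]
      exact mul_le_mul_of_nonneg_left hGδ (by positivity)
    constructor
    · nlinarith
    · nlinarith

end Pool.Agent.Helper53.FT
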