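import Pool.Agent.Helper76.FT.GoalsA
import Pool.Agent.Helper53.FT.Abs

/-! Double exponential series on a strip (packet FT-LIN). -/

set_option autoImplicit false

namespace Pool.Agent.Helper53.FT

open Complex Set Filter Pool.Agent.Helper76.FT
open scoped Topology

theorem isOpen_Str (ρ : ℝ) : IsOpen (Str ρ) :=
  isOpen_lt (continuous_abs.comp continuous_im) continuous_const

theorem real_mem_Str {ρ : ℝ} (h : 0 < ρ) (x : ℝ) : (x : ℂ) ∈ Str ρ := by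
  show |((x:ℂ)).im| < ρ
  simpa using h

theorem norm_ee (m n : ℤ) (z : ℂ) (t : ℝ) : ‖ee m n z t‖ = Real.exp (-(2 * Real.pi * m * z.im)) := by
  unfold ee
  rw [Complex.norm_exp]
  congr 1
  have h : (2 * (Real.pi:ℂ) * I * (m * z + n * t)) = ((2 * Real.pi : ℝ) : ℂ) * (((m:ℝ):ℂ) * z + ((n * t : ℝ):ℂ)) * I := by
    push_cast; ring
  rw [h, Complex.mul_I_re, Complex.im_ofReal_mul, Complex.add_im, Complex.im_ofReal_mul,
    Complex.ofReal_im, add_zero]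
  ring

theorem norm_ee_le (m n : ℤ) {z : ℂ} {r : ℝ} (hz : |z.im| ≤ r) (t : ℝ) :
    ‖ee m n z t‖ ≤ Real.exp (2 * Real.pi * |(m:ℝ)| * r) := by
  rw [norm_ee]
  apply Real.exp_le_exp.mpr
  have h1 : -((m:ℝ) * z.im) ≤ |(m:ℝ)| * r := by
    calc -((m:ℝ) * z.im) ≤ |(m:ℝ) * z.im| := neg_le_abs _
      _ = |(m:ℝ)| * |z.im| := abs_mul _ _
      _ ≤ |(m:ℝ)| * r := mul_le_mul_of_nonneg_left hz (abs_nonneg _)
  nlinarith [Real.pi_pos]

theorem hasDerivAt_ee (m n : ℤ) (z : ℂ) (t : ℝ) :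
    HasDerivAt (fun z => ee m n z t) ((2 * Real.pi * I * m) * ee m n z t) z := by
  unfold ee
  have h1 : HasDerivAt (fun z : ℂ => 2 * (Real.pi:ℂ) * I * (m * z + n * t)) (2 * Real.pi * I * m) z := by
    have h2 := (((hasDerivAt_id z).const_mul (m:ℂ)).add_const ((n:ℂ) * t)).const_mul
      (2 * (Real.pi:ℂ) * I)
    simpa using h2
  have h3 := h1.cexp
  exact h3.congr_deriv (mul_comm _ _)

theorem ee_add_one (m n : ℤ) (z : ℂ) (t : ℝ) : ee m n (z + 1) t = ee m n z t := by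
  unfold ee
  have h : 2 * (Real.pi:ℂ) * I * (m * (z + 1) + n * t)
      = 2 * (Real.pi:ℂ) * I * (m * z + n * t) + (m:ℂ) * (2 * Real.pi * I) := by ring
  rw [h, Complex.exp_add, Complex.exp_int_mul_two_pi_mul_I, mul_one]

theorem ee_time_one (m n : ℤ) (z : ℂ) : ee m n z 1 = ee m n z 0 := by
  unfold ee
  have h : 2 * (Real.pi:ℂ) * I * (m * z + n * (1:ℝ))
      = 2 * (Real.pi:ℂ) * I * (m * z + n * (0:ℝ)) + (n:ℂ) * (2 * Real.pi * I) := by
    push_cast; ring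
  rw [h, Complex.exp_add, Complex.exp_int_mul_two_pi_mul_I, mul_one]

theorem continuous_ee (m n : ℤ) : Continuous (fun q : ℂ × ℝ => ee m n q.1 q.2) := by
  unfold ee
  fun_prop

/-- the `ℓ¹` weight of the derivative series -/
noncomputable def vv (r : ℝ) (k : ℤ × ℤ) : ℝ :=
  2 * Real.pi * |(k.1:ℝ)| * Real.exp (2 * Real.pi * |(k.1:ℝ)| * r)

theorem vv_nonneg (r : ℝ) (k : ℤ × ℤ) : 0 ≤ vv r k := by
  unfold vv
  have := Real.pi_pos
  positivity

/-- derivative series -/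
noncomputable def PhiS (b : ℤ × ℤ → ℂ) (z : ℂ) (t : ℝ) : ℂ :=
  ∑' k : ℤ × ℤ, (2 * Real.pi * I * k.1) * b k * ee k.1 k.2 z t

/-- the series -/
noncomputable def PsiS (b : ℤ × ℤ → ℂ) (z : ℂ) (t : ℝ) : ℂ :=
  ∑' k : ℤ × ℤ, b k * ee k.1 k.2 z t

theorem norm_term (b : ℤ × ℤ → ℂ) (k : ℤ × ℤ) {z : ℂ} {r : ℝ} (hz : |z.im| ≤ r) (t : ℝ) :
    ‖(2 * Real.pi * I * k.1) * b k * ee k.1 k.2 z t‖ ≤ vv r k * ‖b k‖ := by
  rw [norm_mul, norm_mul]
  have h1 : ‖(2 * (Real.pi:ℂ) * I * k.1)‖ = 2 * Real.pi * |(k.1:ℝ)| := by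
    rw [norm_mul, norm_mul, norm_mul, Complex.norm_I, mul_one, Complex.norm_intCast]
    simp [abs_of_pos Real.pi_pos]
  rw [h1]
  unfold vv
  have h2 := norm_ee_le k.1 k.2 hz t
  have h3 : 0 ≤ 2 * Real.pi * |(k.1:ℝ)| * ‖b k‖ := by
    have := Real.pi_pos
    positivity
  calc 2 * Real.pi * |(k.1:ℝ)| * ‖b k‖ * ‖ee k.1 k.2 z t‖
      ≤ 2 * Real.pi * |(k.1:ℝ)| * ‖b k‖ * Real.exp (2 * Real.pi * |(k.1:ℝ)| * r) :=
        mul_le_mul_of_nonneg_left h2 h3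
    _ = _ := by ring

theorem norm_term0 (b : ℤ × ℤ → ℂ) (hb : ∀ k, k.1 = 0 → b k = 0) (k : ℤ × ℤ) {z : ℂ} {r : ℝ}
    (hz : |z.im| ≤ r) (t : ℝ) :
    ‖b k * ee k.1 k.2 z t‖ ≤ vv r k * ‖b k‖ := by
  rcases eq_or_ne k.1 0 with h0 | h0
  · rw [hb k h0]; simp
  · rw [norm_mul]
    have h2 := norm_ee_le k.1 k.2 hz t
    have h3 : (1:ℝ) ≤ |(k.1:ℝ)| := by
      have : (1:ℤ) ≤ |k.1| := Int.one_le_abs h0
      exact_mod_cast this
    have h4 : (1:ℝ) ≤ 2 * Real.pi * |(k.1:ℝ)| := by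
      nlinarith [Real.pi_gt_three]
    unfold vv
    have h5 : 0 ≤ Real.exp (2 * Real.pi * |(k.1:ℝ)| * r) := (Real.exp_pos _).le
    calc ‖b k‖ * ‖ee k.1 k.2 z t‖ ≤ ‖b k‖ * Real.exp (2 * Real.pi * |(k.1:ℝ)| * r) :=
          mul_le_mul_of_nonneg_left h2 (norm_nonneg _)
      _ ≤ ‖b k‖ * ((2 * Real.pi * |(k.1:ℝ)|) * Real.exp (2 * Real.pi * |(k.1:ℝ)| * r)) := by
          apply mul_le_mul_of_nonneg_left _ (norm_nonneg _)
          nlinarith
      _ = _ := by ring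

section
variable {r : ℝ} {b b' : ℤ × ℤ → ℂ}

theorem summable_PhiS (hs : Summable (fun k => vv r k * ‖b k‖)) {z : ℂ} (hz : |z.im| ≤ r) (t : ℝ) :
    Summable (fun k : ℤ × ℤ => (2 * Real.pi * I * k.1) * b k * ee k.1 k.2 z t) :=
  Summable.of_norm_bounded hs fun k => norm_term b k hz t

theorem norm_PhiS_le (hs : Summable (fun k => vv r k * ‖b k‖)) {z : ℂ} (hz : |z.im| ≤ r) (t : ℝ) :
    ‖PhiS b z t‖ ≤ ∑' k, vv r k * ‖b k‖ :=
  tsum_of_norm_bounded hs.hasSum fun k => norm_term b k hz t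

theorem norm_PsiS_le (hb : ∀ k, k.1 = 0 → b k = 0) (hs : Summable (fun k => vv r k * ‖b k‖))
    {z : ℂ} (hz : |z.im| ≤ r) (t : ℝ) :
    ‖PsiS b z t‖ ≤ ∑' k, vv r k * ‖b k‖ :=
  tsum_of_norm_bounded hs.hasSum fun k => norm_term0 b hb k hz t

theorem summable_PsiS (hb : ∀ k, k.1 = 0 → b k = 0) (hs : Summable (fun k => vv r k * ‖b k‖))
    {z : ℂ} (hz : |z.im| ≤ r) (t : ℝ) :
    Summable (fun k : ℤ × ℤ => b k * ee k.1 k.2 z t) :=
  Summable.of_norm_bounded hs fun k => norm_term0 b hb k hz t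

theorem summable_sub (hs : Summable (fun k => vv r k * ‖b k‖))
    (hs' : Summable (fun k => vv r k * ‖b' k‖)) : Summable (fun k => vv r k * ‖b k - b' k‖) := by
  refine Summable.of_nonneg_of_le (fun k => mul_nonneg (vv_nonneg r k) (norm_nonneg _)) ?_
    (hs.add hs')
  intro k
  rw [← mul_add]
  exact mul_le_mul_of_nonneg_left (norm_sub_le _ _) (vv_nonneg r k)

theorem PhiS_sub_le (hs : Summable (fun k => vv r k * ‖b k‖))
    (hs' : Summable (fun k => vv r k * ‖b' k‖)) {z : ℂ} (hz : |z.im| ≤ r) (t : ℝ) :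
    ‖PhiS b z t - PhiS b' z t‖ ≤ ∑' k, vv r k * ‖b k - b' k‖ := by
  have h : PhiS b z t - PhiS b' z t = PhiS (fun k => b k - b' k) z t := by
    unfold PhiS
    rw [← (summable_PhiS hs hz t).tsum_sub (summable_PhiS hs' hz t)]
    apply tsum_congr
    intro k; ring
  rw [h]
  exact norm_PhiS_le (summable_sub hs hs') hz t

theorem contOn_PhiS (hs : Summable (fun k => vv r k * ‖b k‖)) :
    ContinuousOn (fun q : ℂ × ℝ => PhiS b q.1 q.2) (Str r ×ˢ univ) := by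
  unfold PhiS
  apply continuousOn_tsum (u := fun k => vv r k * ‖b k‖) _ hs
  · intro k q hq
    exact norm_term b k (le_of_lt hq.1) q.2
  · intro k
    exact (continuous_const.mul (continuous_ee k.1 k.2)).continuousOn

theorem contOn_PsiS (hb : ∀ k, k.1 = 0 → b k = 0) (hs : Summable (fun k => vv r k * ‖b k‖)) :
    ContinuousOn (fun q : ℂ × ℝ => PsiS b q.1 q.2) (Str r ×ˢ univ) := by
  unfold PsiS
  apply continuousOn_tsum (u := fun k => vv r k * ‖b k‖) _ hs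
  · intro k q hq
    exact norm_term0 b hb k (le_of_lt hq.1) q.2
  · intro k
    exact (continuous_const.mul (continuous_ee k.1 k.2)).continuousOn

theorem diffOn_PhiS (hs : Summable (fun k => vv r k * ‖b k‖)) (t : ℝ) :
    DifferentiableOn ℂ (fun z => PhiS b z t) (Str r) := by
  unfold PhiS
  apply differentiableOn_tsum_of_summable_norm hs _ (isOpen_Str r)
  · intro k z hz
    exact norm_term b k (le_of_lt hz) t
  · intro k z _
    exact ((hasDerivAt_ee k.1 k.2 z t).const_mul _).differentiableAt.differentiableWithinAt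

theorem diffOn_PsiS (hb : ∀ k, k.1 = 0 → b k = 0) (hs : Summable (fun k => vv r k * ‖b k‖))
    (t : ℝ) : DifferentiableOn ℂ (fun z => PsiS b z t) (Str r) := by
  unfold PsiS
  apply differentiableOn_tsum_of_summable_norm hs _ (isOpen_Str r)
  · intro k z hz
    exact norm_term0 b hb k (le_of_lt hz) t
  · intro k z _
    exact ((hasDerivAt_ee k.1 k.2 z t).const_mul _).differentiableAt.differentiableWithinAt

theorem dz_PsiS (hb : ∀ k, k.1 = 0 → b k = 0) (hs : Summable (fun k => vv r k * ‖b k‖))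
    {z : ℂ} (hz : z ∈ Str r) (t : ℝ) : dz (PsiS b) z t = PhiS b z t := by
  unfold dz
  have h := hasSum_deriv_of_summable_norm (F := fun (k : ℤ × ℤ) z => b k * ee k.1 k.2 z t) hs
    (fun k z _ => ((hasDerivAt_ee k.1 k.2 z t).const_mul _).differentiableAt.differentiableWithinAt)
    (isOpen_Str r) (fun k z hz => norm_term0 b hb k (le_of_lt hz) t) hz
  have h2 : ∀ k : ℤ × ℤ, deriv (fun z => b k * ee k.1 k.2 z t) z
      = (2 * Real.pi * I * k.1) * b k * ee k.1 k.2 z t := by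
    intro k
    rw [((hasDerivAt_ee k.1 k.2 z t).const_mul (b k)).deriv]
    ring
  simp only [h2] at h
  exact h.tsum_eq.symm

theorem PhiS_per (b : ℤ × ℤ → ℂ) (z : ℂ) (t : ℝ) : PhiS b (z + 1) t = PhiS b z t := by
  unfold PhiS
  apply tsum_congr
  intro k
  rw [ee_add_one]

theorem PsiS_per (b : ℤ × ℤ → ℂ) (z : ℂ) (t : ℝ) : PsiS b (z + 1) t = PsiS b z t := by
  unfold PsiS
  apply tsum_congr
  intro k
  rw [ee_add_one]

theorem PsiS_close (b : ℤ × ℤ → ℂ) (z : ℂ) : PsiS b z 1 = PsiS b z 0 := by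
  unfold PsiS
  apply tsum_congr
  intro k
  rw [ee_time_one]

end

/-- the derivative of a trigonometric polynomial -/
theorem dz_tp (A : Finset (ℤ × ℤ)) (a b : ℤ × ℤ → ℂ) (hab : ∀ k ∈ A, b k = a k)
    (hb : ∀ k, k ∉ A → b k = 0) (z : ℂ) (t : ℝ) : dz (tp A a) z t = PhiS b z t := by
  unfold dz tp PhiS
  have h1 : HasDerivAt (fun z => ∑ k ∈ A, a k * ee k.1 k.2 z t)
      (∑ k ∈ A, a k * ((2 * Real.pi * I * k.1) * ee k.1 k.2 z t)) z :=
    HasDerivAt.fun_sum fun k _ => (hasDerivAt_ee k.1 k.2 z t).const_mul (a k)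
  rw [h1.deriv, tsum_eq_sum (s := A)]
  · apply Finset.sum_congr rfl
    intro k hk
    rw [hab k hk]; ring
  · intro k hk
    rw [hb k hk]; ring

/-- the energy weight -/
noncomputable def WW (r τ : ℝ) (k : ℤ × ℤ) : ℝ :=
  Real.exp (4 * Real.pi * r * |(k.1 : ℝ)|) * (((k.1 : ℝ))^2 + τ^2 * ((k.2 : ℝ))^2)

theorem WW_nonneg (r τ : ℝ) (k : ℤ × ℤ) : 0 ≤ WW r τ k := by
  unfold WW; positivity

/-- basic summable weight -/
noncomputable def qq (δ : ℝ) (k : ℤ × ℤ) : ℝ :=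
  (1 / δ ^ 4) * ((1 / (k.1:ℝ) ^ 2) * (1 / (1 + (k.2:ℝ) ^ 2)))

theorem qq_nonneg (δ : ℝ) (k : ℤ × ℤ) : 0 ≤ qq δ k := by
  unfold qq; positivity

theorem summable_q0 : Summable (fun k : ℤ × ℤ => (1 / (k.1:ℝ) ^ 2) * (1 / (1 + (k.2:ℝ) ^ 2))) := by
  have h1 : Summable (fun m : ℤ => 1 / (m:ℝ) ^ 2) :=
    Real.summable_one_div_int_pow.mpr (by norm_num)
  have h2 : Summable (fun n : ℤ => 1 / (1 + (n:ℝ) ^ 2)) := by
    have h3 : Summable (fun n : ℤ => 1 / (n:ℝ) ^ 2 + (Pi.single (0:ℤ) (1:ℝ) : ℤ → ℝ) n) :=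
      h1.add (summable_of_hasFiniteSupport (Set.Finite.subset (Set.finite_singleton (0:ℤ))
        (by intro n hn; by_contra h; exact hn (by simp [Pi.single_apply] at *; intro h'; exact absurd h' h))))
    refine Summable.of_nonneg_of_le (fun n => by positivity) (fun n => ?_) h3
    rcases eq_or_ne n 0 with h | h
    · subst h; simp
    · have h4 : (0:ℝ) < (n:ℝ) ^ 2 := by
        have : (n:ℝ) ≠ 0 := by exact_mod_cast h
        positivity
      rw [Pi.single_eq_of_ne h, add_zero]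
      exact one_div_le_one_div_of_le h4 (by linarith)
  exact h1.mul_of_nonneg h2 (fun m => by positivity) (fun n => by positivity)

theorem summable_qq (δ : ℝ) : Summable (qq δ) := summable_q0.mul_left _

theorem vv_le (ρ δ τ : ℝ) (hδ : 0 < δ) (hτ : 1 ≤ τ) (k : ℤ × ℤ) :
    vv (ρ - δ) k ^ 2 ≤ qq δ k * WW (ρ - δ / 2) τ k := by
  rcases eq_or_ne k.1 0 with h0 | h0
  · unfold vv qq
    rw [h0]; simp
  have hπ := Real.pi_gt_three
  set m : ℝ := |(k.1:ℝ)| with hm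
  have hm1 : 1 ≤ m := by
    have : (1:ℤ) ≤ |k.1| := Int.one_le_abs h0
    rw [hm]
    exact_mod_cast this
  have hm2 : (k.1:ℝ) ^ 2 = m ^ 2 := by rw [hm, sq_abs]
  set N : ℝ := (k.2:ℝ) ^ 2 with hN
  have hN0 : 0 ≤ N := sq_nonneg _
  unfold vv qq WW
  rw [hm2, ← hN, ← hm]
  have hx : (2 * Real.pi * m * (ρ - δ)) + (2 * Real.pi * m * (ρ - δ)) + 2 * Real.pi * δ * m
      = 4 * Real.pi * (ρ - δ / 2) * m := by ring
  have hexp : Real.exp (2 * Real.pi * m * (ρ - δ)) ^ 2 * Real.exp (2 * Real.pi * δ * m)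
      = Real.exp (4 * Real.pi * (ρ - δ / 2) * m) := by
    rw [sq, ← Real.exp_add, ← Real.exp_add, hx]
  rw [← hexp]
  set E := Real.exp (2 * Real.pi * m * (ρ - δ)) ^ 2 with hE
  have hE0 : 0 < E := by rw [hE]; positivity
  have h4 : (2 * Real.pi * δ * m) ^ 4 / 24 ≤ Real.exp (2 * Real.pi * δ * m) := by
    have := Real.pow_div_factorial_le_exp (2 * Real.pi * δ * m) (by positivity) 4
    norm_num [Nat.factorial] at this ⊢
    exact this
  have h6 : 1 + N ≤ m ^ 2 + τ ^ 2 * N := by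
    have hτ2 : (1:ℝ) ≤ τ ^ 2 := one_le_pow₀ hτ
    have hm3 : (1:ℝ) ≤ m ^ 2 := one_le_pow₀ hm1
    have := mul_le_mul_of_nonneg_right hτ2 hN0
    linarith
  have hpos : (0:ℝ) < 1 + N := by positivity
  -- main estimate
  have hA : 4 * Real.pi ^ 2 * m ^ 2 ≤ (1 / δ ^ 4 * (1 / m ^ 2 * (1 / (1 + N))))
      * (Real.exp (2 * Real.pi * δ * m) * (m ^ 2 + τ ^ 2 * N)) := by
    have h7 : (1 / δ ^ 4 * (1 / m ^ 2 * (1 / (1 + N)))) * ((2 * Real.pi * δ * m) ^ 4 / 24 * (1 + N))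
        ≤ (1 / δ ^ 4 * (1 / m ^ 2 * (1 / (1 + N))))
      * (Real.exp (2 * Real.pi * δ * m) * (m ^ 2 + τ ^ 2 * N)) := by
      apply mul_le_mul_of_nonneg_left _ (by positivity)
      exact mul_le_mul h4 h6 hpos.le (Real.exp_pos _).le
    refine le_trans ?_ h7
    have h8 : (1 / δ ^ 4 * (1 / m ^ 2 * (1 / (1 + N)))) * ((2 * Real.pi * δ * m) ^ 4 / 24 * (1 + N))
        = (16 / 24) * Real.pi ^ 4 * m ^ 2 := by
      field_simp
      ring
    rw [h8]
    have h9 : 9 ≤ Real.pi ^ 2 := by nlinarith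
    have h10 : 4 * Real.pi ^ 2 ≤ (16 / 24) * Real.pi ^ 4 := by nlinarith
    exact mul_le_mul_of_nonneg_right h10 (by positivity)
  have h11 : (2 * Real.pi * m * Real.exp (2 * Real.pi * m * (ρ - δ))) ^ 2
      = E * (4 * Real.pi ^ 2 * m ^ 2) := by rw [hE]; ring
  rw [h11]
  calc E * (4 * Real.pi ^ 2 * m ^ 2) ≤ E * ((1 / δ ^ 4 * (1 / m ^ 2 * (1 / (1 + N))))
      * (Real.exp (2 * Real.pi * δ * m) * (m ^ 2 + τ ^ 2 * N))) :=
        mul_le_mul_of_nonneg_left hA hE0.le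
    _ = _ := by ring

end Pool.Agent.Helper53.FT
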