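import Pool.Agent.Helper53.FT.Coef

/-! Integrating the equation at every point of the strip (packet FT-LIN). -/

set_option autoImplicit false

namespace Pool.Agent.Helper53.FT

open Complex Set Filter Pool.Agent.Helper76.FT MeasureTheory Pool.Agent.Helper89.TW
open scoped Topology Interval

/-- Fourier expansion in `z` of the time integral of a holomorphic periodic function -/
theorem space_int (r : ℝ) (f : ℂ → ℝ → ℂ)
    (hc : ContinuousOn (fun q : ℂ × ℝ => f q.1 q.2) (Str r ×ˢ univ))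
    (hd : ∀ s, DifferentiableOn ℂ (fun z => f z s) (Str r))
    (hp : ∀ z ∈ Str r, ∀ s, f (z + 1) s = f z s) (z0 : ℂ) (hz0 : z0 ∈ Str r) (t : ℝ)
    (hs : Summable (fun m : ℤ => (∫ s in (0:ℝ)..t, cx f m s) * Complex.exp (2 * Real.pi * m * I * z0))) :
    HasSum (fun m : ℤ => (∫ s in (0:ℝ)..t, cx f m s) * Complex.exp (2 * Real.pi * m * I * z0))
      (∫ s in (0:ℝ)..t, f z0 s) := by
  have hz0' : |z0.im| < r := hz0
  have hmem : ∀ x : ℝ, (z0 + (x:ℂ)) ∈ Str r := by
    intro x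
    show |(z0 + (x:ℂ)).im| < r
    simpa using hz0'
  have hfc : Continuous (fun q : ℝ × ℝ => f (z0 + (q.1 : ℂ)) q.2) :=
    hc.comp_continuous (f := fun q : ℝ × ℝ => (z0 + (q.1 : ℂ), q.2)) (by fun_prop)
      (fun q => ⟨hmem q.1, mem_univ _⟩)
  have hJc : Continuous (fun x : ℝ => ∫ s in (0:ℝ)..t, f (z0 + (x:ℂ)) s) :=
    intervalIntegral.continuous_parametric_intervalIntegral_of_continuous'
      (f := fun (x s : ℝ) => f (z0 + (x : ℂ)) s) hfc 0 t
  have hJp : Function.Periodic (fun x : ℝ => ∫ s in (0:ℝ)..t, f (z0 + (x:ℂ)) s) 1 := by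
    intro x
    apply intervalIntegral.integral_congr
    intro s _
    show f (z0 + ((x + 1 : ℝ) : ℂ)) s = f (z0 + x) s
    rw [← hp _ (hmem x) s]
    congr 1
    push_cast; ring
  let F : C(UnitAddCircle, ℂ) := ⟨hJp.lift, continuous_coinduced_dom.mpr hJc⟩
  have hcoef : ∀ m : ℤ, fourierCoeff F m
      = (∫ s in (0:ℝ)..t, cx f m s) * Complex.exp (2 * Real.pi * m * I * z0) := by
    intro m
    rw [fourierCoeff_eq_intervalIntegral _ m 0]
    simp only [zero_add, div_one, one_smul]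
    have h1 : ∫ x in (0:ℝ)..1, fourier (-m) (x : UnitAddCircle) • F (x : UnitAddCircle)
        = ∫ x in (0:ℝ)..1, ∫ s in (0:ℝ)..t,
          f (z0 + (x:ℂ)) s * Complex.exp (-(2 * Real.pi * m * x : ℝ) * I) := by
      apply intervalIntegral.integral_congr
      intro x _
      show fourier (-m) (x : UnitAddCircle) • F (x : UnitAddCircle)
        = ∫ s in (0:ℝ)..t, f (z0 + (x:ℂ)) s * Complex.exp (-(2 * Real.pi * m * x : ℝ) * I)
      have h2 : F (x : UnitAddCircle) = ∫ s in (0:ℝ)..t, f (z0 + (x:ℂ)) s := hJp.lift_coe x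
      rw [h2, smul_eq_mul, mul_comm, fourier_coe_apply, intervalIntegral.integral_mul_const]
      congr 2
      push_cast; ring
    rw [h1]
    have hcc : Continuous (Function.uncurry (fun (x s : ℝ) =>
        f (z0 + (x:ℂ)) s * Complex.exp (-(2 * Real.pi * m * x : ℝ) * I))) := by
      exact hfc.mul (by fun_prop)
    rw [MeasureTheory.intervalIntegral_intervalIntegral_swap
      (F := fun (x s : ℝ) => f (z0 + (x:ℂ)) s * Complex.exp (-(2 * Real.pi * m * x : ℝ) * I))]
    · rw [← intervalIntegral.integral_mul_const]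
      apply intervalIntegral.integral_congr
      intro s _
      show ∫ x in (0:ℝ)..1, f (z0 + (x:ℂ)) s * Complex.exp (-(2 * Real.pi * m * x : ℝ) * I)
        = cx f m s * Complex.exp (2 * Real.pi * m * I * z0)
      exact c1_shift r (fun z => f z s) (hd s) (fun z hz => hp z hz s) m z0 hz0
    · apply (hcc.continuousOn (s := uIcc 0 1 ×ˢ uIcc 0 t)).integrableOn_compact
        (isCompact_uIcc.prod isCompact_uIcc) |>.mono_set
      exact prod_mono uIoc_subset_uIcc uIoc_subset_uIcc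
  have hs' : Summable (fourierCoeff F) := by
    have : (fourierCoeff F) = fun m : ℤ =>
      (∫ s in (0:ℝ)..t, cx f m s) * Complex.exp (2 * Real.pi * m * I * z0) := funext hcoef
    rw [this]; exact hs
  have h := has_pointwise_sum_fourier_series_of_summable hs' ((0:ℝ) : UnitAddCircle)
  have h0 : F ((0:ℝ) : UnitAddCircle) = ∫ s in (0:ℝ)..t, f z0 s := by
    have : F ((0:ℝ) : UnitAddCircle) = ∫ s in (0:ℝ)..t, f (z0 + ((0:ℝ):ℂ)) s := hJp.lift_coe 0
    rw [this]; simp
  rw [h0] at h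
  have h1 : (fun i : ℤ => fourierCoeff F i • fourier i ((0:ℝ) : UnitAddCircle))
      = fun m : ℤ => (∫ s in (0:ℝ)..t, cx f m s) * Complex.exp (2 * Real.pi * m * I * z0) := by
    funext m
    rw [hcoef m, fourier_coe_apply]
    simp
  rw [h1] at h
  exact h

/-- the series `PsiS` as a double series -/
theorem hasSum_PsiS {r : ℝ} {b : ℤ × ℤ → ℂ} (hb : ∀ k, k.1 = 0 → b k = 0)
    (hs : Summable (fun k => vv r k * ‖b k‖)) {z : ℂ} (hz : |z.im| ≤ r) (t : ℝ) :
    HasSum (fun m : ℤ => (∑' n : ℤ, b (m, n) * Complex.exp ((2 * Real.pi * n * t : ℝ) * I))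
      * Complex.exp (2 * Real.pi * m * I * z)) (PsiS b z t) := by
  have h1 := (summable_PsiS hb hs hz t).hasSum
  refine h1.prod_fiberwise fun m => ?_
  have h2 : Summable (fun n : ℤ => b (m, n) * ee m n z t) :=
    (summable_PsiS hb hs hz t).prod_factor m
  have h3 : ∀ n : ℤ, b (m, n) * ee m n z t
      = (b (m, n) * Complex.exp ((2 * Real.pi * n * t : ℝ) * I))
        * Complex.exp (2 * Real.pi * m * I * z) := by
    intro n; rw [ee_split]; ring
  have h4 : (fun n : ℤ => b (m, n) * ee m n z t) = fun n : ℤ =>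
      (b (m, n) * Complex.exp ((2 * Real.pi * n * t : ℝ) * I))
        * Complex.exp (2 * Real.pi * m * I * z) := funext h3
  show HasSum (fun n : ℤ => b (m, n) * ee m n z t) _
  rw [h4] at h2 ⊢
  rw [← tsum_mul_right]
  exact h2.hasSum

theorem summable_row {r : ℝ} {b : ℤ × ℤ → ℂ} (hb : ∀ k, k.1 = 0 → b k = 0)
    (hs : Summable (fun k => vv r k * ‖b k‖)) (m : ℤ) : Summable (fun n : ℤ => ‖b (m, n)‖) := by
  rcases eq_or_ne m 0 with h0 | h0
  · have : (fun n : ℤ => ‖b (m, n)‖) = fun _ => 0 := by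
      funext n; rw [hb (m, n) h0]; simp
    rw [this]; exact summable_zero
  · have h1 : Summable (fun n : ℤ => vv r (m, n) * ‖b (m, n)‖) := hs.prod_factor m
    have h2 : vv r (m, 0) ≠ 0 := by
      unfold vv
      have : (m:ℝ) ≠ 0 := by exact_mod_cast h0
      have := Real.pi_pos
      positivity
    have h3 : (fun n : ℤ => vv r (m, n) * ‖b (m, n)‖) = fun n : ℤ => vv r (m, 0) * ‖b (m, n)‖ := rfl
    rw [h3] at h1
    exact (summable_mul_left_iff h2).mp h1

/-- the integrated equation -/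
theorem int_eq {r τ : ℝ} {b : ℤ × ℤ → ℂ} (hb : ∀ k, k.1 = 0 → b k = 0)
    (hs : Summable (fun k => vv r k * ‖b k‖)) (f : ℂ → ℝ → ℂ)
    (hc : ContinuousOn (fun q : ℂ × ℝ => f q.1 q.2) (Str r ×ˢ univ))
    (hd : ∀ s, DifferentiableOn ℂ (fun z => f z s) (Str r))
    (hp : ∀ z ∈ Str r, ∀ s, f (z + 1) s = f z s)
    (hG : ∀ m n : ℤ, m ≠ 0 → fco f m n = τ * (2 * Real.pi * I * n) * b (m, n))
    (z0 : ℂ) (hz0 : z0 ∈ Str r) (t : ℝ) (ht : t ∈ Icc (0:ℝ) 1) :
    ∫ s in (0:ℝ)..t, f z0 s = τ * (PsiS b z0 t - PsiS b z0 0) + ∫ s in (0:ℝ)..t, cx f 0 s := by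
  have hr : 0 < r := lt_of_le_of_lt (abs_nonneg _) hz0
  have hfc : Continuous (fun q : ℝ × ℝ => f (q.1 : ℂ) q.2) :=
    hc.comp_continuous (f := fun q : ℝ × ℝ => ((q.1 : ℂ), q.2)) (by fun_prop)
      (fun q => ⟨real_mem_Str hr q.1, mem_univ _⟩)
  have hD : ∀ m : ℤ, m ≠ 0 → ∫ s in (0:ℝ)..t, cx f m s
      = τ * (∑' n : ℤ, b (m, n) * Complex.exp ((2 * Real.pi * n * t : ℝ) * I) - ∑' n : ℤ, b (m, n)) := by
    intro m hm
    apply time_int (cx f m) (continuous_cx f hfc m) (fun n => b (m, n)) (summable_row hb hs m) τ _ t ht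
    intro n
    rw [← fco_eq]
    exact hG m n hm
  have h1 := hasSum_PsiS hb hs (le_of_lt hz0) t
  have h0 := hasSum_PsiS hb hs (le_of_lt hz0) 0
  have h2 := ((h1.sub h0).mul_left (τ:ℂ)).add
    (hasSum_pi_single (0:ℤ) (∫ s in (0:ℝ)..t, cx f 0 s))
  have h3 : (fun m : ℤ => (∫ s in (0:ℝ)..t, cx f m s) * Complex.exp (2 * Real.pi * m * I * z0))
      = fun m : ℤ => τ * ((∑' n : ℤ, b (m, n) * Complex.exp ((2 * Real.pi * n * t : ℝ) * I))
      * Complex.exp (2 * Real.pi * m * I * z0)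
        - (∑' n : ℤ, b (m, n) * Complex.exp ((2 * Real.pi * n * 0 : ℝ) * I))
      * Complex.exp (2 * Real.pi * m * I * z0))
        + (Pi.single (0:ℤ) (∫ s in (0:ℝ)..t, cx f 0 s) : ℤ → ℂ) m := by
    funext m
    rcases eq_or_ne m 0 with hm | hm
    · subst hm
      have h4 : ∀ n : ℤ, b (0, n) = 0 := fun n => hb (0, n) rfl
      simp [h4]
    · rw [Pi.single_eq_of_ne hm, add_zero, hD m hm]
      have h5 : ∀ n : ℤ, b (m, n) * Complex.exp ((2 * Real.pi * n * 0 : ℝ) * I) = b (m, n) := by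
        intro n; simp
      simp only [h5]
      ring
  rw [← h3] at h2
  have h4 := space_int r f hc hd hp z0 hz0 t h2.summable
  exact h4.unique h2

end Pool.Agent.Helper53.FT
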