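import Pool.Agent.Helper76.FT.GoalsC

/-! Preliminaries for the packet FT-START. -/

set_option autoImplicit false

namespace Pool.Agent.Helper53.FT.St

open Complex Set Filter Pool.Agent.Helper76.FT MeasureTheory
open scoped Topology Interval

/-- second order Taylor estimate -/
theorem taylor2 (f : ℂ → ℂ) (R M : ℝ) (hR : 0 < R) (hf : DifferentiableOn ℂ f (Metric.ball 0 R))
    (hb : ∀ y ∈ Metric.ball (0:ℂ) R, ‖f y‖ ≤ M) (h0 : f 0 = 0) (d : ℂ) (hd : HasDerivAt f d 0) :
    ∀ y ∈ Metric.ball (0:ℂ) R, ‖f y - d * y‖ ≤ 2 * M / R ^ 2 * ‖y‖ ^ 2 := by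
  intro y hy
  have hdn : ‖d‖ ≤ M / R := by
    rw [← hd.deriv]
    apply Complex.norm_deriv_le_div_of_mapsTo_ball hf _ hR
    intro z hz
    rw [h0, mem_closedBall_zero_iff]
    exact hb z hz
  have hF : DifferentiableOn ℂ (fun y => f y - d * y) (Metric.ball 0 R) :=
    hf.sub (by fun_prop)
  have hmaps : MapsTo (fun y => f y - d * y) (Metric.ball 0 R)
      (Metric.closedBall ((fun y => f y - d * y) 0) (2 * M)) := by
    intro z hz
    have h1 : (fun y => f y - d * y) 0 = 0 := by simp [h0]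
    rw [h1, mem_closedBall_zero_iff]
    refine (norm_sub_le _ _).trans ?_
    rw [norm_mul]
    have h2 : ‖z‖ < R := by simpa using hz
    have h3 : ‖d‖ * ‖z‖ ≤ M / R * R :=
      mul_le_mul hdn h2.le (norm_nonneg _) ((norm_nonneg _).trans hdn)
    rw [div_mul_cancel₀ _ hR.ne'] at h3
    linarith [hb z hz]
  have hlit : ((fun w => (fun y => f y - d * y) w - (fun y => f y - d * y) 0)
      =o[𝓝 0] fun w => ‖w - (0:ℂ)‖ ^ 1) := by
    have h1 := hd.isLittleO.norm_right
    have h2 : (fun w => (fun y => f y - d * y) w - (fun y => f y - d * y) 0)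
        = fun x' => f x' - f 0 - (x' - 0) • d := by
      funext w
      simp [mul_comm]
      ring
    rw [h2]
    simpa only [pow_one] using h1
  have h := Complex.dist_le_mul_div_pow_of_mapsTo_ball_of_isLittleO (n := 1) hF hmaps hlit hy
  have h1 : dist ((fun y => f y - d * y) y) ((fun y => f y - d * y) 0) = ‖f y - d * y‖ := by
    rw [dist_eq_norm]; simp [h0]
  rw [h1] at h
  refine h.trans (le_of_eq ?_)
  rw [dist_zero_right]
  norm_num
  field_simp

theorem convex_Str (ρ : ℝ) : Convex ℝ (Str ρ) := by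
  have h : Str ρ = Complex.imLm ⁻¹' (Ioo (-ρ) ρ) := by
    ext z
    simp [Str, abs_lt]
  rw [h]
  exact (convex_Ioo _ _).is_linear_preimage Complex.imLm.isLinear

theorem isOpen_Str (ρ : ℝ) : IsOpen (Str ρ) :=
  isOpen_lt (continuous_abs.comp continuous_im) continuous_const

theorem real_mem_Str {ρ : ℝ} (h : 0 < ρ) (x : ℝ) : (x : ℂ) ∈ Str ρ := by
  show |((x:ℂ)).im| < ρ
  simpa using h

theorem add_one_mem_Str {ρ : ℝ} {z : ℂ} (hz : z ∈ Str ρ) : z + 1 ∈ Str ρ := by
  have h : |z.im| < ρ := hz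
  show |(z + 1).im| < ρ
  simpa using h

/-- periodic primitive on a strip -/
theorem per_primitive (ρ : ℝ) (hρ : 0 < ρ) (f : ℂ → ℂ) (hf : DifferentiableOn ℂ f (Str ρ))
    (hp : ∀ z ∈ Str ρ, f (z + 1) = f z) (h0 : ∫ x in (0:ℝ)..1, f (x : ℂ) = 0) :
    ∃ g : ℂ → ℂ, (∀ z ∈ Str ρ, HasDerivAt g (f z) z) ∧ ∀ z ∈ Str ρ, g (z + 1) = g z := by
  obtain ⟨g, hg⟩ := (convex_Str ρ).exists_forall_hasDerivWithinAt hf
  have hg' : ∀ z ∈ Str ρ, HasDerivAt g (f z) z := fun z hz =>
    (hg z hz).hasDerivAt ((isOpen_Str ρ).mem_nhds hz)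
  refine ⟨g, hg', ?_⟩
  -- the difference is constant
  have hD : ∀ z ∈ Str ρ, HasDerivAt (fun z => g (z + 1) - g z) 0 z := by
    intro z hz
    have h1 : HasDerivAt (fun z => g (z + 1)) (f (z + 1)) z :=
      (hg' (z + 1) (add_one_mem_Str hz)).comp_add_const z 1
    have h2 := h1.sub (hg' z hz)
    rw [hp z hz, sub_self] at h2
    exact h2
  have hconst : ∀ z ∈ Str ρ, g (z + 1) - g z = g (0 + 1) - g 0 := by
    intro z hz
    have h0m : (0:ℂ) ∈ Str ρ := by
      show |(0:ℂ).im| < ρ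
      simpa using hρ
    exact (convex_Str ρ).is_const_of_fderivWithin_eq_zero (𝕜 := ℂ)
      (f := fun z => g (z + 1) - g z)
      (fun z hz => (hD z hz).differentiableAt.differentiableWithinAt)
      (fun z hz => by
        have h1 : HasFDerivAt (fun z => g (z + 1) - g z) (0 : ℂ →L[ℂ] ℂ) z := by
          have h2 := (hD z hz).hasFDerivAt
          rw [ContinuousLinearMap.toSpanSingleton_zero] at h2
          exact h2
        exact (h1.hasFDerivWithinAt).fderivWithin ((isOpen_Str ρ).uniqueDiffWithinAt hz))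
      hz h0m
  have hint : g (0 + 1) - g 0 = 0 := by
    have h1 : ∫ x in (0:ℝ)..1, f (x : ℂ) = g ((1:ℝ) : ℂ) - g ((0:ℝ) : ℂ) := by
      apply intervalIntegral.integral_eq_sub_of_hasDerivAt (f := fun x : ℝ => g (x : ℂ))
      · intro x _
        exact (hg' x (real_mem_Str hρ x)).comp_ofReal
      · have hc : Continuous (fun x : ℝ => f (x : ℂ)) :=
          hf.continuousOn.comp_continuous Complex.continuous_ofReal (fun x => real_mem_Str hρ x)
        exact hc.intervalIntegrable _ _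
    rw [h0] at h1
    rw [zero_add]
    simpa using h1.symm
  intro z hz
  have h1 := hconst z hz
  rw [hint] at h1
  exact sub_eq_zero.mp h1

/-- the principal square root -/
noncomputable def sq (z : ℂ) : ℂ := Complex.exp (Complex.log z / 2)

theorem sq_sq {z : ℂ} (hz : z ≠ 0) : sq z ^ 2 = z := by
  unfold sq
  rw [← Complex.exp_nat_mul]
  have : ((2:ℕ) : ℂ) * (Complex.log z / 2) = Complex.log z := by push_cast; ring
  rw [this, Complex.exp_log hz]

theorem sq_re_pos {z : ℂ} (hz : 0 < z.re) : 0 < (sq z).re := by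
  unfold sq
  rw [Complex.exp_re]
  apply mul_pos (Real.exp_pos _)
  have h1 : (Complex.log z / 2).im = z.arg / 2 := by
    rw [show (Complex.log z / 2) = Complex.log z / ((2:ℝ):ℂ) by push_cast; rfl,
      Complex.div_ofReal_im, Complex.log_im]
  rw [h1]
  have h2 : |z.arg| < Real.pi / 2 := Complex.abs_arg_lt_pi_div_two_iff.mpr (Or.inl hz)
  rw [abs_lt] at h2
  have := Real.pi_pos
  apply Real.cos_pos_of_mem_Ioo
  constructor <;> linarith

theorem sq_re_ge {z : ℂ} {k0 : ℝ} (hk : 0 < k0) (hz : k0 ≤ z.re) : √k0 ≤ (sq z).re := by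
  have hz0 : 0 < z.re := lt_of_lt_of_le hk hz
  have hne : z ≠ 0 := by
    intro h; rw [h] at hz0; simp at hz0
  have h1 := sq_sq hne
  have h2 : (sq z ^ 2).re = (sq z).re ^ 2 - (sq z).im ^ 2 := by
    rw [_root_.sq, Complex.mul_re]; ring
  rw [h1] at h2
  have h3 := sq_re_pos hz0
  apply Real.sqrt_le_iff.mpr
  exact ⟨h3.le, by nlinarith [sq_nonneg (sq z).im]⟩

theorem sq_norm {z : ℂ} (hz : z ≠ 0) : ‖sq z‖ ^ 2 = ‖z‖ := by
  rw [← norm_pow, sq_sq hz]

theorem sq_real {x : ℝ} (hx : 0 < x) : sq (x : ℂ) = (((sq (x:ℂ)).re : ℝ) : ℂ) := by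
  have h : sq (x : ℂ) = ((Real.exp (Real.log x / 2) : ℝ) : ℂ) := by
    unfold sq
    rw [← Complex.ofReal_log hx.le]
    push_cast
    rfl
  rw [h, Complex.ofReal_re]

theorem sq_hasDeriv {z : ℂ} (hz : 0 < z.re) : DifferentiableAt ℂ sq z := by
  unfold sq
  have h : z ∈ Complex.slitPlane := Or.inl hz
  have h1 := (Complex.hasDerivAt_log h).differentiableAt
  exact (h1.div_const 2).cexp

end Pool.Agent.Helper53.FT.St
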