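import Pool.Agent.Helper53.FT.StA

/-! Estimates near the leaf at rest (packet FT-START). -/

set_option autoImplicit false

namespace Pool.Agent.Helper53.FT.St

open Complex Set Filter Pool.Agent.Helper76.FT MeasureTheory
open scoped Topology Interval

variable {S : Sys} {W : ℝ → ℂ → ℂ → ℂ} {r₂ r₃ M k₀ : ℝ}

theorem V_a_neg (hS : S.Ok) (q : ℝ) {t : ℝ} (ht : t ∈ Icc (0:ℝ) 1) : S.V S.a q t < 0 := by
  have h := hS.Vmono S.a ⟨le_rfl, (hS.ha.trans hS.hb).le⟩ 0 ⟨hS.ha.le, hS.hb.le⟩ hS.ha q t ht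
  rwa [hS.Vzero q t ht] at h

theorem V_b_pos (hS : S.Ok) (q : ℝ) {t : ℝ} (ht : t ∈ Icc (0:ℝ) 1) : 0 < S.V S.b q t := by
  have h := hS.Vmono 0 ⟨hS.ha.le, hS.hb.le⟩ S.b ⟨(hS.ha.trans hS.hb).le, le_rfl⟩ hS.hb q t ht
  rwa [hS.Vzero q t ht] at h

theorem reg0 (hS : S.Ok) (q : ℝ) {t : ℝ} (ht : t ∈ Icc (0:ℝ) 1) : (q, (0:ℝ)) ∈ S.Reg t :=
  ⟨(V_a_neg hS q ht).le, (V_b_pos hS q ht).le⟩

/-- uniform gap -/
theorem exists_gap (hS : S.Ok) : ∃ gap : ℝ, 0 < gap ∧ ∀ q : ℝ, ∀ t ∈ Icc (0:ℝ) 1,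
    S.V S.a q t < -gap ∧ gap < S.V S.b q t := by
  have hab : S.a ∈ Icc S.a S.b := ⟨le_rfl, (hS.ha.trans hS.hb).le⟩
  have hbb : S.b ∈ Icc S.a S.b := ⟨(hS.ha.trans hS.hb).le, le_rfl⟩
  have hca : ContinuousOn (fun z : ℝ × ℝ => S.V S.a z.1 z.2) (univ ×ˢ Icc (0:ℝ) 1) :=
    hS.Vcont.comp (f := fun z : ℝ × ℝ => (S.a, z.1, z.2)) (by fun_prop)
      (fun z hz => ⟨hab, mem_univ _, hz.2⟩)
  have hcb : ContinuousOn (fun z : ℝ × ℝ => S.V S.b z.1 z.2) (univ ×ˢ Icc (0:ℝ) 1) :=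
    hS.Vcont.comp (f := fun z : ℝ × ℝ => (S.b, z.1, z.2)) (by fun_prop)
      (fun z hz => ⟨hbb, mem_univ _, hz.2⟩)
  have hcm : ContinuousOn (fun z : ℝ × ℝ => min (-S.V S.a z.1 z.2) (S.V S.b z.1 z.2))
      (Icc (0:ℝ) 1 ×ˢ Icc (0:ℝ) 1) :=
    (continuous_min.comp_continuousOn (hca.neg.prodMk hcb)).mono
      (prod_mono (subset_univ _) Subset.rfl)
  obtain ⟨z0, hz0, hmin⟩ := (isCompact_Icc.prod isCompact_Icc).exists_isMinOn
    ⟨((0:ℝ), (0:ℝ)), by simp⟩ hcm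
  set g0 := min (-S.V S.a z0.1 z0.2) (S.V S.b z0.1 z0.2) with hg0
  have hg0pos : 0 < g0 := by
    rw [hg0]
    exact lt_min (by linarith [V_a_neg hS z0.1 hz0.2]) (V_b_pos hS z0.1 hz0.2)
  refine ⟨g0 / 2, by linarith, ?_⟩
  intro q t ht
  have hper : Function.Periodic (fun q => (S.V S.a q t, S.V S.b q t)) 1 := by
    intro x
    show (S.V S.a (x + 1) t, S.V S.b (x + 1) t) = (S.V S.a x t, S.V S.b x t)
    rw [hS.Vper S.a hab x t ht, hS.Vper S.b hbb x t ht]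
  obtain ⟨y, hy, hxy⟩ := hper.exists_mem_Ico₀ one_pos q
  have h1 : S.V S.a q t = S.V S.a y t := congrArg Prod.fst hxy
  have h2 : S.V S.b q t = S.V S.b y t := congrArg Prod.snd hxy
  have h3 : g0 ≤ min (-S.V S.a y t) (S.V S.b y t) := by
    have hmem : (y, t) ∈ Icc (0:ℝ) 1 ×ˢ Icc (0:ℝ) 1 := ⟨⟨hy.1, hy.2.le⟩, ht⟩
    exact hmin hmem
  rw [h1, h2]
  have h4 := h3.trans (min_le_left _ _)
  have h5 := h3.trans (min_le_right _ _)
  constructor <;> linarith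

theorem norm_sub_re (z : ℂ) : ‖z - (z.re : ℂ)‖ = |z.im| := by
  have h : z - (z.re : ℂ) = (z.im : ℂ) * I := by
    apply Complex.ext <;> simp
  rw [h, norm_mul, Complex.norm_I, mul_one, Complex.norm_real, Real.norm_eq_abs]

theorem mem_Nb (hS : S.Ok) {t r : ℝ} (ht : t ∈ Icc (0:ℝ) 1) {z v : ℂ} (hz : |z.im| < r)
    (hv : ‖v‖ < r) : (z, v) ∈ S.Nb t r := by
  refine ⟨(z.re, 0), reg0 hS z.re ht, ?_, ?_⟩
  · show ‖z - (z.re : ℂ)‖ < r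
    rw [norm_sub_re]; exact hz
  · show ‖v - ((0:ℝ) : ℂ)‖ < r
    simpa using hv

theorem mem_Pb (hS : S.Ok) {t r : ℝ} (ht : t ∈ Icc (0:ℝ) 1) {z v : ℂ} (hz : |z.im| < r)
    (hv : ‖v‖ < r) : (z, v) ∈ Pb S t r := by
  refine ⟨(z.re, 0), reg0 hS z.re ht, ?_, ?_⟩
  · show ‖z - (z.re : ℂ)‖ < r
    rw [norm_sub_re]; exact hz
  · show ‖v - S.p t (z.re : ℂ) ((0:ℝ) : ℂ)‖ < r
    unfold Sys.p
    simpa using hv

/-- derivative of `W` in the momentum at zero momentum -/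
theorem hasDerivAt_W (hS : S.Ok) (hMom : GMom) (hW : WF S W r₂ r₃ M k₀) {t : ℝ}
    (ht : t ∈ Icc (0:ℝ) 1) {z : ℂ} (hz : |z.im| < r₂) (hz' : |z.im| < S.r) :
    HasDerivAt (fun y => W t z y) (1 / S.κ z 0) 0 := by
  have hP : (z, (0:ℂ)) ∈ Pb S t r₂ := mem_Pb hS ht hz (by simpa using hW.h2)
  have hN : (z, (0:ℂ)) ∈ S.Nb t S.r := mem_Nb hS ht hz' (by simpa using hS.hr)
  have hd1 : DifferentiableAt ℂ (fun z : ℂ × ℂ => W t z.1 z.2) (z, (0:ℂ)) :=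
    (hW.hol t ht).differentiableAt ((hW.opn t).mem_nhds hP)
  have hd2 : DifferentiableAt ℂ (fun y => W t z y) 0 :=
    hd1.comp (f := fun y : ℂ => (z, y)) (0:ℂ) (by fun_prop)
  obtain ⟨d, hd⟩ : ∃ d, HasDerivAt (fun y => W t z y) d 0 := ⟨_, hd2.hasDerivAt⟩
  obtain ⟨k0, M', _, _, _, _, hmom⟩ := hMom S hS
  have hp := ((hmom t ht).2.2 (z, 0) hN).1
  simp only [mul_zero, sub_zero] at hp
  have hW0 : W t z 0 = 0 := hW.zero t ht (z, 0) hP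
  have hcomp : HasDerivAt (fun y => S.p t z (W t z y)) (S.κ z 0 * d) 0 := by
    have h1 : HasDerivAt (fun w => S.p t z w) (S.κ z 0) (W t z 0) := by rw [hW0]; exact hp
    exact h1.comp (0:ℂ) hd
  have hid : (fun y => S.p t z (W t z y)) =ᶠ[𝓝 0] fun y => y := by
    filter_upwards [Metric.ball_mem_nhds (0:ℂ) hW.h2] with y hy
    rw [mem_ball_zero_iff] at hy
    exact (hW.pW t ht (z, y) (mem_Pb hS ht hz hy)).2
  have h1 : HasDerivAt (fun y : ℂ => y) (S.κ z 0 * d) 0 := hcomp.congr_of_eventuallyEq hid.symm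
  have h2 : S.κ z 0 * d = 1 := h1.unique (hasDerivAt_id (0:ℂ))
  have hk : S.κ z 0 ≠ 0 := by
    intro h
    rw [h, zero_mul] at h2
    exact zero_ne_one h2
  have h3 : d = 1 / S.κ z 0 := by
    field_simp
    rw [mul_comm]; exact h2
  rw [← h3]
  exact hd

/-- second order estimate of `W` -/
theorem W_est (hS : S.Ok) (hMom : GMom) (hW : WF S W r₂ r₃ M k₀) {t : ℝ}
    (ht : t ∈ Icc (0:ℝ) 1) {z : ℂ} (hz : |z.im| < r₂) (hz' : |z.im| < S.r) {y : ℂ} (hy : ‖y‖ < r₂) :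
    ‖W t z y - y / S.κ z 0‖ ≤ 2 * M / r₂ ^ 2 * ‖y‖ ^ 2 := by
  have hmem : ∀ y ∈ Metric.ball (0:ℂ) r₂, (z, y) ∈ Pb S t r₂ := fun y hy =>
    mem_Pb hS ht hz (by simpa using hy)
  have hf : DifferentiableOn ℂ (fun y => W t z y) (Metric.ball 0 r₂) :=
    (hW.hol t ht).comp (f := fun y : ℂ => (z, y)) (by fun_prop) hmem
  have h := taylor2 (fun y => W t z y) r₂ M hW.h2 hf
    (fun y hy => (hW.bd t ht (z, y) (hmem y hy)).1)
    (hW.zero t ht (z, 0) (hmem 0 (by simpa using hW.h2)))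
    (1 / S.κ z 0) (hasDerivAt_W hS hMom hW ht hz hz') y (by simpa using hy)
  have h1 : W t z y - y / S.κ z 0 = W t z y - 1 / S.κ z 0 * y := by ring
  rw [h1]
  exact h

theorem M_nonneg (hS : S.Ok) (hW : WF S W r₂ r₃ M k₀) : 0 ≤ M := by
  have ht : (0:ℝ) ∈ Icc (0:ℝ) 1 := ⟨le_rfl, zero_le_one⟩
  exact (norm_nonneg _).trans
    (hW.bd 0 ht (0, 0) (mem_Pb hS ht (by simpa using hW.h2) (by simpa using hW.h2))).1

/-- third order estimate of the Hamiltonian -/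
theorem E_est (hS : S.Ok) (hMom : GMom) (hW : WF S W r₂ r₃ M k₀) {t : ℝ}
    (ht : t ∈ Icc (0:ℝ) 1) {z : ℂ} (hz : |z.im| < r₂) (hz' : |z.im| < S.r) {y : ℂ} (hy : ‖y‖ < r₂) :
    ‖Ef W t z y - y ^ 2 / (2 * S.κ z 0)‖ ≤ 2 * M / r₂ ^ 2 * ‖y‖ ^ 3 := by
  have hM := M_nonneg hS hW
  have hmem : ∀ s ∈ Icc (0:ℝ) 1, (z, (s:ℂ) * y) ∈ Pb S t r₂ := by
    intro s hs
    apply mem_Pb hS ht hz
    rw [norm_mul, Complex.norm_real, Real.norm_eq_abs, abs_of_nonneg hs.1]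
    nlinarith [norm_nonneg y, hs.2]
  have hc : ContinuousOn (fun s : ℝ => W t z ((s:ℂ) * y)) (Icc 0 1) :=
    (hW.hol t ht).continuousOn.comp (f := fun s : ℝ => (z, (s:ℂ) * y)) (by fun_prop) hmem
  have hi : IntervalIntegrable (fun s : ℝ => W t z ((s:ℂ) * y)) volume 0 1 := by
    apply ContinuousOn.intervalIntegrable
    rw [uIcc_of_le zero_le_one]; exact hc
  have hi2 : IntervalIntegrable (fun s : ℝ => (s:ℂ) * y / S.κ z 0) volume 0 1 := by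
    apply Continuous.intervalIntegrable
    fun_prop
  have h1 : y ^ 2 / (2 * S.κ z 0) = y * ∫ s in (0:ℝ)..1, (s:ℂ) * y / S.κ z 0 := by
    have h2 : ∀ s : ℝ, (s:ℂ) * y / S.κ z 0 = (s:ℂ) * (y / S.κ z 0) := fun s => by ring
    simp only [h2]
    rw [intervalIntegral.integral_mul_const]
    have h3 : ∫ s in (0:ℝ)..1, (s:ℂ) = 1 / 2 := by
      rw [intervalIntegral.integral_ofReal, integral_id]
      norm_num
    rw [h3]
    ring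
  have h2 : Ef W t z y - y ^ 2 / (2 * S.κ z 0)
      = y * ∫ s in (0:ℝ)..1, (W t z ((s:ℂ) * y) - (s:ℂ) * y / S.κ z 0) := by
    rw [h1, intervalIntegral.integral_sub hi hi2]
    unfold Ef
    ring
  rw [h2, norm_mul]
  have h3 : ‖∫ s in (0:ℝ)..1, (W t z ((s:ℂ) * y) - (s:ℂ) * y / S.κ z 0)‖
      ≤ (2 * M / r₂ ^ 2 * ‖y‖ ^ 2) * |1 - 0| := by
    apply intervalIntegral.norm_integral_le_of_norm_le_const
    intro s hs
    rw [uIoc_of_le zero_le_one] at hs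
    have hn : ‖(s:ℂ) * y‖ ≤ ‖y‖ := by
      rw [norm_mul, Complex.norm_real, Real.norm_eq_abs, abs_of_nonneg hs.1.le]
      nlinarith [norm_nonneg y, hs.2]
    refine (W_est hS hMom hW ht hz hz' (lt_of_le_of_lt hn hy)).trans ?_
    apply mul_le_mul_of_nonneg_left _ (by positivity)
    exact pow_le_pow_left₀ (norm_nonneg _) hn 2
  calc ‖y‖ * ‖∫ s in (0:ℝ)..1, (W t z ((s:ℂ) * y) - (s:ℂ) * y / S.κ z 0)‖
      ≤ ‖y‖ * ((2 * M / r₂ ^ 2 * ‖y‖ ^ 2) * |1 - 0|) :=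
        mul_le_mul_of_nonneg_left h3 (norm_nonneg _)
    _ = _ := by norm_num; ring

/-! ### the density at rest -/

theorem k_hol (hS : S.Ok) : DifferentiableOn ℂ (fun z => S.κ z 0) (Str S.r) := by
  have ht : (0:ℝ) ∈ Icc (0:ℝ) 1 := ⟨le_rfl, zero_le_one⟩
  refine hS.κhol.comp (f := fun z : ℂ => (z, (0:ℂ))) (by fun_prop) ?_
  intro z hz
  exact mem_Nb hS ht (lt_of_lt_of_le hz hS.hR) (by simpa using lt_of_lt_of_le hS.hr hS.hR)

theorem k_mem (hS : S.Ok) {z : ℂ} (hz : z ∈ Str S.r) : (z, (0:ℂ)) ∈ S.Nb 0 S.R := by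
  have ht : (0:ℝ) ∈ Icc (0:ℝ) 1 := ⟨le_rfl, zero_le_one⟩
  exact mem_Nb hS ht (lt_of_lt_of_le hz hS.hR) (by simpa using lt_of_lt_of_le hS.hr hS.hR)

theorem k_real (hS : S.Ok) (x : ℝ) : S.κ (x : ℂ) 0 = ((S.κ (x : ℂ) 0).re : ℂ) := by
  have h := hS.κsym _ (k_mem hS (real_mem_Str hS.hr x))
  simp only [Complex.conj_ofReal, map_zero] at h
  exact (Complex.conj_eq_iff_re.mp h.symm).symm

end Pool.Agent.Helper53.FT.St
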