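import Pool.Agent.Helper53.FT.StB

/-! The nonlinearity near the leaf at rest (packet FT-START). -/

set_option autoImplicit false

namespace Pool.Agent.Helper53.FT.St

open Complex Set Filter Pool.Agent.Helper76.FT MeasureTheory
open scoped Topology Interval

variable {S : Sys} {W : ℝ → ℂ → ℂ → ℂ} {r₂ r₃ M k₀ : ℝ}

/-- rescaled Hamiltonian -/
noncomputable def NN (W : ℝ → ℂ → ℂ → ℂ) (Ph : ℂ → ℂ) (ε : ℝ) (z : ℂ) (t : ℝ) (u : ℂ) : ℂ :=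
  Ef W t z (ε * (Ph z + u)) / (ε:ℂ) ^ 2

theorem start_NL {ρ0 B K0 μ ε : ℝ} {Ph : ℂ → ℂ} (hS : S.Ok) (hMom : GMom) (hGE : GE)
    (hW : WF S W r₂ r₃ M k₀) (hρ2 : ρ0 ≤ r₂) (hρ3 : ρ0 ≤ S.r)
    (hPh : DifferentiableOn ℂ Ph (Str ρ0)) (hPhp : ∀ z ∈ Str ρ0, Ph (z + 1) = Ph z)
    (hPhB : ∀ z ∈ Str ρ0, ‖Ph z‖ ≤ B) (hB : 0 ≤ B) (hK0 : 0 < K0)
    (hk : ∀ z ∈ Str ρ0, K0 ≤ ‖S.κ z 0‖) (hIm : ∀ z ∈ Str ρ0, 2 * μ ≤ (Ph z / S.κ z 0).im)
    (hε : 0 < ε) (hε1 : ε ≤ 1) (hεr : ε * (B + 1) < r₂)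
    (hεμ : (2 * M / r₂ ^ 2) * (B + 1) ^ 2 * ε ≤ μ) :
    NL (NN W Ph ε) ρ0 1 ((B + 1) ^ 2 / (2 * K0) + (2 * M / r₂ ^ 2) * (B + 1) ^ 3) μ := by
  have hM := M_nonneg hS hW
  have hr2 := hW.h2
  obtain ⟨hEc, _, hE⟩ := hGE S hS W r₂ r₃ M k₀ hW
  have hi2 : ∀ z ∈ Str ρ0, |z.im| < r₂ := fun z hz => lt_of_lt_of_le hz hρ2
  have hi3 : ∀ z ∈ Str ρ0, |z.im| < S.r := fun z hz => lt_of_lt_of_le hz hρ3
  have hεc : (ε:ℂ) ≠ 0 := by exact_mod_cast hε.ne'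
  have hnorm : ∀ z ∈ Str ρ0, ∀ u ∈ Metric.ball (0:ℂ) 1, ‖(ε:ℂ) * (Ph z + u)‖ ≤ ε * (B + 1) := by
    intro z hz u hu
    rw [mem_ball_zero_iff] at hu
    rw [norm_mul, Complex.norm_real, Real.norm_eq_abs, abs_of_pos hε]
    apply mul_le_mul_of_nonneg_left _ hε.le
    exact (norm_add_le _ _).trans (add_le_add (hPhB z hz) hu.le)
  have hmem : ∀ z ∈ Str ρ0, ∀ t ∈ Icc (0:ℝ) 1, ∀ u ∈ Metric.ball (0:ℂ) 1,
      (z, (ε:ℂ) * (Ph z + u)) ∈ Pb S t r₂ := fun z hz t ht u hu =>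
    mem_Pb hS ht (hi2 z hz) (lt_of_le_of_lt (hnorm z hz u hu) hεr)
  refine ⟨?_, ?_, ?_, ?_, ?_⟩
  · intro t ht
    unfold NN
    simp only [div_eq_mul_inv]
    apply DifferentiableOn.mul_const
    refine (hE t ht).1.comp (f := fun p : ℂ × ℂ => (p.1, (ε:ℂ) * (Ph p.1 + p.2))) ?_ ?_
    · have h1 : DifferentiableOn ℂ (fun p : ℂ × ℂ => Ph p.1) (Str ρ0 ×ˢ Metric.ball (0:ℂ) 1) :=
        hPh.comp (f := fun p : ℂ × ℂ => p.1) (by fun_prop) (fun p hp => hp.1)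
      exact (differentiableOn_fst).prodMk (((h1.add differentiableOn_snd)).const_mul _)
    · intro p hp
      exact hmem p.1 hp.1 t ht p.2 hp.2
  · unfold NN
    apply ContinuousOn.div_const
    refine hEc.comp (f := fun q : ℂ × ℝ × ℂ => (q.2.1, (q.1, (ε:ℂ) * (Ph q.1 + q.2.2)))) ?_ ?_
    · have h1 : ContinuousOn (fun q : ℂ × ℝ × ℂ => Ph q.1)
          (Str ρ0 ×ˢ (Icc (0:ℝ) 1 ×ˢ Metric.ball (0:ℂ) 1)) :=
        hPh.continuousOn.comp (f := fun q : ℂ × ℝ × ℂ => q.1) (by fun_prop) (fun p hp => hp.1)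
      have hc1 : ContinuousOn (fun q : ℂ × ℝ × ℂ => (ε:ℂ) * (Ph q.1 + q.2.2))
          (Str ρ0 ×ˢ (Icc (0:ℝ) 1 ×ˢ Metric.ball (0:ℂ) 1)) :=
        continuousOn_const.mul
          (h1.add (by fun_prop : Continuous fun q : ℂ × ℝ × ℂ => q.2.2).continuousOn)
      exact (by fun_prop : Continuous fun q : ℂ × ℝ × ℂ => q.2.1).continuousOn.prodMk
        ((by fun_prop : Continuous fun q : ℂ × ℝ × ℂ => q.1).continuousOn.prodMk hc1)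
    · intro q hq
      exact ⟨hq.2.1, hmem q.1 hq.1 q.2.1 hq.2.1 q.2.2 hq.2.2⟩
  · intro z hz t ht u hu
    unfold NN
    rw [hPhp z hz, ((hE t ht).2.1 _ (hmem z hz t ht u hu)).2]
  · intro z hz t ht u hu
    unfold NN
    have hy := hnorm z hz u hu
    obtain ⟨y, hydef⟩ : ∃ y : ℂ, y = (ε:ℂ) * (Ph z + u) := ⟨_, rfl⟩
    rw [← hydef] at hy ⊢
    have h1 := E_est hS hMom hW ht (hi2 z hz) (hi3 z hz) (lt_of_le_of_lt hy hεr)
    have hkz := hk z hz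
    have hkpos : 0 < ‖S.κ z 0‖ := lt_of_lt_of_le hK0 hkz
    have h2 : ‖y ^ 2 / (2 * S.κ z 0)‖ ≤ (ε * (B + 1)) ^ 2 / (2 * K0) := by
      have h22 : ‖(2:ℂ)‖ = 2 := by simp
      rw [norm_div, norm_pow, norm_mul, h22]
      apply div_le_div₀ (by positivity) (pow_le_pow_left₀ (norm_nonneg _) hy 2) (by positivity)
      linarith
    have h3 : 2 * M / r₂ ^ 2 * ‖y‖ ^ 3 ≤ 2 * M / r₂ ^ 2 * (ε * (B + 1)) ^ 3 :=
      mul_le_mul_of_nonneg_left (pow_le_pow_left₀ (norm_nonneg _) hy 3) (by positivity)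
    have h4 : ‖Ef W t z y‖ ≤ (ε * (B + 1)) ^ 2 / (2 * K0) + 2 * M / r₂ ^ 2 * (ε * (B + 1)) ^ 3 := by
      have h5 : Ef W t z y = y ^ 2 / (2 * S.κ z 0) + (Ef W t z y - y ^ 2 / (2 * S.κ z 0)) := by ring
      rw [h5]
      exact (norm_add_le _ _).trans (add_le_add h2 (h1.trans h3))
    rw [norm_div, norm_pow, Complex.norm_real, Real.norm_eq_abs, abs_of_pos hε,
      div_le_iff₀ (by positivity)]
    refine h4.trans ?_
    have h6 : (ε * (B + 1)) ^ 2 / (2 * K0) = (B + 1) ^ 2 / (2 * K0) * ε ^ 2 := by ring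
    have h7 : 2 * M / r₂ ^ 2 * (ε * (B + 1)) ^ 3 = (2 * M / r₂ ^ 2 * (B + 1) ^ 3 * ε ^ 2) * ε := by ring
    rw [h6, h7, add_mul]
    have h8 : 0 ≤ 2 * M / r₂ ^ 2 * (B + 1) ^ 3 * ε ^ 2 := by positivity
    nlinarith
  · intro z hz t ht
    have h0 : (0:ℂ) ∈ Metric.ball (0:ℂ) 1 := by simp
    have hd : HasDerivAt (fun u => NN W Ph ε z t u) (W t z (ε * Ph z) / ε) 0 := by
      have h1 := ((hE t ht).2.1 _ (hmem z hz t ht 0 h0)).1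
      simp only [add_zero] at h1
      have h2 : HasDerivAt (fun u : ℂ => (ε:ℂ) * (Ph z + u)) (ε:ℂ) 0 := by
        have h3 := ((hasDerivAt_id (0:ℂ)).const_add (Ph z)).const_mul (ε:ℂ)
        simpa using h3
      have h4 : HasDerivAt (fun y => Ef W t z y) (W t z (ε * Ph z)) ((ε:ℂ) * (Ph z + 0)) := by
        rw [add_zero]; exact h1
      have h5 := (h4.comp (0:ℂ) h2).div_const ((ε:ℂ) ^ 2)
      have h6 : W t z (ε * Ph z) * ε / (ε:ℂ) ^ 2 = W t z (ε * Ph z) / ε := by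
        field_simp
      rw [h6] at h5
      exact h5
    rw [hd.deriv]
    have hy : ‖(ε:ℂ) * Ph z‖ ≤ ε * (B + 1) := by
      have := hnorm z hz 0 h0
      simpa using this
    have h1 := W_est hS hMom hW ht (hi2 z hz) (hi3 z hz) (lt_of_le_of_lt hy hεr)
    have h2 : W t z (ε * Ph z) / ε
        = Ph z / S.κ z 0 + (W t z (ε * Ph z) - ε * Ph z / S.κ z 0) / ε := by
      field_simp
      ring
    rw [h2, Complex.add_im]
    have h3 : ‖(W t z (ε * Ph z) - ε * Ph z / S.κ z 0) / ε‖ ≤ 2 * M / r₂ ^ 2 * (B + 1) ^ 2 * ε := by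
      rw [norm_div, Complex.norm_real, Real.norm_eq_abs, abs_of_pos hε, div_le_iff₀ hε]
      refine h1.trans ?_
      have h4 : 2 * M / r₂ ^ 2 * (B + 1) ^ 2 * ε * ε = 2 * M / r₂ ^ 2 * (ε * (B + 1)) ^ 2 := by ring
      rw [h4]
      exact mul_le_mul_of_nonneg_left (pow_le_pow_left₀ (norm_nonneg _) hy 2) (by positivity)
    have h4 := (abs_le.mp ((Complex.abs_im_le_norm _).trans (h3.trans hεμ))).1
    have h5 := hIm z hz
    linarith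

end Pool.Agent.Helper53.FT.St
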