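import Pool.Agent.Helper53.FT.StC

/-! Complex tori near the leaf at rest (packet FT-START). -/

set_option autoImplicit false

namespace Pool.Agent.Helper53.FT.St

open Complex Set Filter Pool.Agent.Helper76.FT MeasureTheory
open scoped Topology Interval

/-- the momentum profile at first order -/
theorem exists_profile {S : Sys} (hS : S.Ok) {ρ0 : ℝ} (hρ0 : 0 < ρ0) (hρ3 : ρ0 ≤ S.r) :
    ∃ (Ph Φ : ℂ → ℂ) (B K0 μ : ℝ) (e0 : ℂ), 0 ≤ B ∧ 0 < K0 ∧ 0 < μ ∧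
      DifferentiableOn ℂ Ph (Str ρ0) ∧ (∀ z ∈ Str ρ0, Ph (z + 1) = Ph z) ∧
      (∀ z ∈ Str ρ0, ‖Ph z‖ ≤ B) ∧ (∀ z ∈ Str ρ0, K0 ≤ ‖S.κ z 0‖) ∧
      (∀ z ∈ Str ρ0, 2 * μ ≤ (Ph z / S.κ z 0).im) ∧
      (∀ z ∈ Str ρ0, Ph z ^ 2 / (2 * S.κ z 0) = e0) ∧
      (∀ z ∈ Str ρ0, HasDerivAt Φ (Ph z - I) z) ∧ (∀ z ∈ Str ρ0, Φ (z + 1) = Φ z) := by
  obtain ⟨Mκ, hMκ⟩ := hS.κbd
  obtain ⟨K0, hK0, hK0'⟩ := hS.κpos
  have hsub : Str ρ0 ⊆ Str S.r := fun z hz => lt_of_lt_of_le hz hρ3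
  have hkre : ∀ z ∈ Str ρ0, K0 ≤ (S.κ z 0).re := fun z hz => hK0' _ (k_mem hS (hsub hz))
  have hkM : ∀ z ∈ Str ρ0, ‖S.κ z 0‖ ≤ Mκ := fun z hz => hMκ _ (k_mem hS (hsub hz))
  have hkn : ∀ z ∈ Str ρ0, K0 ≤ ‖S.κ z 0‖ := fun z hz =>
    (hkre z hz).trans (Complex.re_le_norm _)
  have hkne : ∀ z ∈ Str ρ0, S.κ z 0 ≠ 0 := fun z hz =>
    norm_pos_iff.mp (lt_of_lt_of_le hK0 (hkn z hz))
  have hkhol : DifferentiableOn ℂ (fun z => S.κ z 0) (Str ρ0) := (k_hol hS).mono hsub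
  have hkper : ∀ z ∈ Str ρ0, S.κ (z + 1) 0 = S.κ z 0 := fun z hz =>
    hS.κper _ (k_mem hS (hsub hz))
  have hreal := fun x : ℝ => real_mem_Str hρ0 x
  have hMκ0 : 0 < Mκ := lt_of_lt_of_le hK0 ((hkn 0 (by simpa using hreal 0)).trans
    (hkM 0 (by simpa using hreal 0)))
  -- the square root
  have hskd : DifferentiableOn ℂ (fun z => sq (S.κ z 0)) (Str ρ0) := by
    intro z hz
    have h1 : DifferentiableAt ℂ (fun z => S.κ z 0) z :=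
      (hkhol z hz).differentiableAt ((isOpen_Str ρ0).mem_nhds hz)
    exact ((sq_hasDeriv (lt_of_lt_of_le hK0 (hkre z hz))).comp z h1).differentiableWithinAt
  have hskc : Continuous (fun x : ℝ => sq (S.κ (x:ℂ) 0)) :=
    hskd.continuousOn.comp_continuous Complex.continuous_ofReal hreal
  have hskre : ∀ z ∈ Str ρ0, √K0 ≤ (sq (S.κ z 0)).re := fun z hz => sq_re_ge hK0 (hkre z hz)
  have hsK0 : 0 < √K0 := Real.sqrt_pos.mpr hK0
  have hskne : ∀ z ∈ Str ρ0, sq (S.κ z 0) ≠ 0 := by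
    intro z hz h
    have := hskre z hz
    rw [h] at this
    simp at this
    linarith
  have hskn : ∀ z ∈ Str ρ0, ‖sq (S.κ z 0)‖ ≤ √Mκ := by
    intro z hz
    apply Real.le_sqrt_of_sq_le
    rw [sq_norm (hkne z hz)]
    exact hkM z hz
  obtain ⟨m, hm⟩ : ∃ m : ℝ, m = ∫ x in (0:ℝ)..1, (sq (S.κ (x:ℂ) 0)).re := ⟨_, rfl⟩
  have hmpos : 0 < m := by
    have h1 : ∫ x in (0:ℝ)..1, √K0 ≤ ∫ x in (0:ℝ)..1, (sq (S.κ (x:ℂ) 0)).re := by
      apply intervalIntegral.integral_mono_on zero_le_one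
      · exact continuous_const.intervalIntegrable _ _
      · exact (Complex.continuous_re.comp hskc).intervalIntegrable _ _
      · intro x _
        exact hskre x (hreal x)
    rw [intervalIntegral.integral_const, ← hm] at h1
    simp at h1
    linarith
  have hskint : ∫ x in (0:ℝ)..1, sq (S.κ (x:ℂ) 0) = (m:ℂ) := by
    rw [hm, ← intervalIntegral.integral_ofReal]
    apply intervalIntegral.integral_congr
    intro x _
    show sq (S.κ (x:ℂ) 0) = (((sq (S.κ (x:ℂ) 0)).re : ℝ) : ℂ)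
    have h1 := k_real hS x
    have h2 : 0 < (S.κ (x:ℂ) 0).re := lt_of_lt_of_le hK0 (hkre x (hreal x))
    rw [h1]
    exact sq_real h2
  have hmc : (m:ℂ) ≠ 0 := by exact_mod_cast hmpos.ne'
  obtain ⟨Φ, hΦ, hΦp⟩ := per_primitive ρ0 hρ0 (fun z => I * sq (S.κ z 0) / m - I)
    (((hskd.const_mul I).div_const _).sub_const I)
    (fun z hz => by
      show I * sq (S.κ (z + 1) 0) / m - I = I * sq (S.κ z 0) / m - I
      rw [hkper z hz])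
    (by
      have hi1 : IntervalIntegrable (fun x : ℝ => I * sq (S.κ (x:ℂ) 0) / m) volume 0 1 :=
        ((continuous_const.mul hskc).div_const _).intervalIntegrable _ _
      have hi2 : IntervalIntegrable (fun _ : ℝ => I) volume 0 1 :=
        continuous_const.intervalIntegrable _ _
      rw [intervalIntegral.integral_sub hi1 hi2]
      have h1 : ∀ x : ℝ, I * sq (S.κ (x:ℂ) 0) / m = (I / m) * sq (S.κ (x:ℂ) 0) := fun x => by ring
      simp only [h1]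
      rw [intervalIntegral.integral_const_mul, hskint, intervalIntegral.integral_const]
      field_simp
      simp)
  refine ⟨fun z => I * sq (S.κ z 0) / m, Φ, √Mκ / m, K0, √K0 / (m * Mκ) / 2, -1 / (2 * m ^ 2),
    by positivity, hK0, by positivity, (hskd.const_mul I).div_const _, ?_, ?_, hkn, ?_, ?_, hΦ, hΦp⟩
  · intro z hz
    show I * sq (S.κ (z + 1) 0) / m = I * sq (S.κ z 0) / m
    rw [hkper z hz]
  · intro z hz
    rw [norm_div, norm_mul, Complex.norm_I, one_mul, Complex.norm_real, Real.norm_eq_abs,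
      abs_of_pos hmpos]
    exact div_le_div_of_nonneg_right (hskn z hz) hmpos.le
  · intro z hz
    have hs2 := sq_sq (hkne z hz)
    have hne := hskne z hz
    have h1 : I * sq (S.κ z 0) / m / S.κ z 0 = I * ((sq (S.κ z 0))⁻¹ / (m:ℂ)) := by
      nth_rewrite 2 [← hs2]
      field_simp
    show 2 * (√K0 / (m * Mκ) / 2) ≤ (I * sq (S.κ z 0) / m / S.κ z 0).im
    rw [h1, Complex.I_mul_im, Complex.div_ofReal_re, Complex.inv_re]
    have h2 : Complex.normSq (sq (S.κ z 0)) ≤ Mκ := by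
      rw [Complex.normSq_eq_norm_sq, sq_norm (hkne z hz)]
      exact hkM z hz
    have h3 : 0 < Complex.normSq (sq (S.κ z 0)) := Complex.normSq_pos.mpr hne
    have h4 : √K0 / Mκ ≤ (sq (S.κ z 0)).re / Complex.normSq (sq (S.κ z 0)) :=
      div_le_div₀ (hsK0.le.trans (hskre z hz)) (hskre z hz) h3 h2
    have h5 : 2 * (√K0 / (m * Mκ) / 2) = √K0 / Mκ / m := by field_simp
    rw [h5]
    exact div_le_div_of_nonneg_right h4 hmpos.le
  · intro z hz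
    have hs2 := sq_sq (hkne z hz)
    have hne := hskne z hz
    show (I * sq (S.κ z 0) / m) ^ 2 / (2 * S.κ z 0) = -1 / (2 * m ^ 2)
    have hkz := hkne z hz
    rw [div_pow, mul_pow, Complex.I_sq, hs2]
    field_simp

theorem ft_start : GReg → GMom → GW → GE → GFromPhi → GNewton → GStart := by
  intro _ hMom hGW hGE hFrom hNewton
  intro S hS δ η hδ hδr hη
  obtain ⟨W, r₂, r₃, M, k₀, hW⟩ := hGW S hS
  obtain ⟨δ₀, hδ₀, hFrom⟩ := hFrom S hS W r₂ r₃ M k₀ hW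
  obtain ⟨gap, hgap, hgapV⟩ := exists_gap hS
  have hM := M_nonneg hS hW
  have hr2 := hW.h2
  obtain ⟨ρ0, hρ0, hρ1, hρ2, hρ3⟩ : ∃ ρ0 : ℝ, 0 < ρ0 ∧ ρ0 ≤ 1 ∧ ρ0 ≤ r₂ ∧ ρ0 ≤ S.r :=
    ⟨min 1 (min r₂ S.r), lt_min one_pos (lt_min hr2 hS.hr), min_le_left _ _,
      (min_le_right _ _).trans (min_le_left _ _), (min_le_right _ _).trans (min_le_right _ _)⟩
  obtain ⟨Ph, Φ, B, K0, μ, e0, hB, hK0, hμ, hPh, hPhp, hPhB, hk, hIm, he0, hΦ, hΦp⟩ :=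
    exists_profile hS hρ0 hρ3
  obtain ⟨C1, hC1⟩ : ∃ C1 : ℝ, C1 = 2 * M / r₂ ^ 2 := ⟨_, rfl⟩
  have hC10 : 0 ≤ C1 := by rw [hC1]; positivity
  have hB1 : 0 < B + 1 := by linarith
  obtain ⟨εN, CN, hεN, hCN, hNewton⟩ := hNewton ρ0 1 ((B + 1) ^ 2 / (2 * K0) + C1 * (B + 1) ^ 3) μ
    hρ0 hρ1 one_pos (by positivity) hμ
  -- choice of `ε`
  have hsmall : ∀ c d : ℝ, 0 < d → ∀ᶠ ε : ℝ in 𝓝[>] 0, c * ε < d := by
    intro c d hd
    have h1 : Tendsto (fun ε : ℝ => c * ε) (𝓝[>] 0) (𝓝 (c * 0)) :=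
      ((continuous_const.mul continuous_id).tendsto 0).mono_left nhdsWithin_le_nhds
    rw [mul_zero] at h1
    exact h1.eventually_lt_const hd
  have hev : ∀ᶠ ε : ℝ in 𝓝[>] 0, 0 < ε ∧ 1 * ε < 1 ∧ 1 * ε < η ∧ (B + 1) * ε < r₂ ∧
      (C1 * (B + 1) ^ 2) * ε < μ ∧ (C1 * (B + 1) ^ 3) * ε < εN ∧
      (CN * (C1 * (B + 1) ^ 3) / K0 + C1 * (B + 1) ^ 2) * ε < 2 * μ ∧
      ((B + 1) / K0 + C1 * (B + 1) ^ 2) * ε < min (min δ δ₀) gap := by
    filter_upwards [self_mem_nhdsWithin, hsmall 1 1 one_pos, hsmall 1 η hη, hsmall (B + 1) r₂ hr2,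
      hsmall (C1 * (B + 1) ^ 2) μ hμ, hsmall (C1 * (B + 1) ^ 3) εN hεN,
      hsmall (CN * (C1 * (B + 1) ^ 3) / K0 + C1 * (B + 1) ^ 2) (2 * μ) (by linarith),
      hsmall ((B + 1) / K0 + C1 * (B + 1) ^ 2) (min (min δ δ₀) gap)
        (lt_min (lt_min hδ hδ₀) hgap)] with ε h1 h2 h3 h4 h5 h6 h7 h8
    exact ⟨h1, h2, h3, h4, h5, h6, h7, h8⟩
  obtain ⟨ε, hε, hε1, hεη, hεr, hεμ, hεN', hε7, hε8⟩ := hev.exists
  rw [one_mul] at hε1 hεη
  have hεc : (ε:ℂ) ≠ 0 := by exact_mod_cast hε.ne'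
  have hNL := start_NL hS hMom hGE hW hρ2 hρ3 hPh hPhp hPhB hB hK0 hk hIm hε hε1.le
    (by rw [mul_comm]; exact hεr) (by rw [← hC1]; exact hεμ.le)
  rw [← hC1] at hNL
  have hi2 : ∀ z ∈ Str ρ0, |z.im| < r₂ := fun z hz => lt_of_lt_of_le hz hρ2
  have hi3 : ∀ z ∈ Str ρ0, |z.im| < S.r := fun z hz => lt_of_lt_of_le hz hρ3
  have hτ : (1:ℝ) ≤ 1 / ε := by rw [le_div_iff₀ hε]; linarith
  have hN0 : ∀ z ∈ Str ρ0, ∀ t ∈ Icc (0:ℝ) 1, ‖NN W Ph ε z t 0 - e0‖ ≤ C1 * (B + 1) ^ 3 * ε := by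
    intro z hz t ht
    have hy : ‖(ε:ℂ) * Ph z‖ ≤ ε * (B + 1) := by
      rw [norm_mul, Complex.norm_real, Real.norm_eq_abs, abs_of_pos hε]
      exact mul_le_mul_of_nonneg_left ((hPhB z hz).trans (by linarith)) hε.le
    have h1 := E_est hS hMom hW ht (hi2 z hz) (hi3 z hz)
      (lt_of_le_of_lt hy (by rw [mul_comm]; exact hεr))
    have h2 : NN W Ph ε z t 0 - e0
        = (Ef W t z (ε * Ph z) - (ε * Ph z) ^ 2 / (2 * S.κ z 0)) / (ε:ℂ) ^ 2 := by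
      rw [← he0 z hz]
      unfold NN
      rw [add_zero]
      field_simp
    rw [h2, norm_div, norm_pow, Complex.norm_real, Real.norm_eq_abs, abs_of_pos hε,
      div_le_iff₀ (by positivity)]
    refine h1.trans ?_
    rw [← hC1]
    have h3 : C1 * (B + 1) ^ 3 * ε * ε ^ 2 = C1 * (ε * (B + 1)) ^ 3 := by ring
    rw [h3]
    exact mul_le_mul_of_nonneg_left (pow_le_pow_left₀ (norm_nonneg _) hy 3) hC10
  obtain ⟨ψ, e1, hψ, _, hψb⟩ := hNewton (NN W Ph ε) hNL (1 / ε) (C1 * (B + 1) ^ 3 * ε) e0 hτ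
    (by positivity) hεN'.le hN0
  -- the half strip
  have hρh : 0 < ρ0 / 2 := by linarith
  have hsub : Str (ρ0 / 2) ⊆ Str ρ0 := fun z hz => by
    have h1 : |z.im| < ρ0 / 2 := hz
    show |z.im| < ρ0
    linarith
  let φ : ℂ → ℝ → ℂ := fun z t => (ε:ℂ) * (Φ z + ψ z t)
  have hdψ : ∀ z ∈ Str (ρ0 / 2), ∀ t ∈ Icc (0:ℝ) 1, HasDerivAt (fun z => ψ z t) (dz ψ z t) z := by
    intro z hz t ht
    exact ((hψ.sh.hol t ht z hz).differentiableAt ((isOpen_Str _).mem_nhds hz)).hasDerivAt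
  have hdφ : ∀ z ∈ Str (ρ0 / 2), ∀ t ∈ Icc (0:ℝ) 1,
      HasDerivAt (fun z => φ z t) ((ε:ℂ) * ((Ph z - I) + dz ψ z t)) z := by
    intro z hz t ht
    exact ((hΦ z (hsub hz)).add (hdψ z hz t ht)).const_mul _
  have hdzφ : ∀ z ∈ Str (ρ0 / 2), ∀ t ∈ Icc (0:ℝ) 1,
      (ε:ℂ) * I + dz φ z t = (ε:ℂ) * (Ph z + dz ψ z t) := by
    intro z hz t ht
    have h1 : dz φ z t = (ε:ℂ) * ((Ph z - I) + dz ψ z t) := (hdφ z hz t ht).deriv
    rw [h1]; ring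
  have hyn : ∀ z ∈ Str (ρ0 / 2), ∀ t ∈ Icc (0:ℝ) 1, ‖(ε:ℂ) * (Ph z + dz ψ z t)‖ ≤ ε * (B + 1) := by
    intro z hz t ht
    rw [norm_mul, Complex.norm_real, Real.norm_eq_abs, abs_of_pos hε]
    apply mul_le_mul_of_nonneg_left _ hε.le
    exact (norm_add_le _ _).trans (add_le_add (hPhB z (hsub hz)) (hψb z hz t ht).2.le)
  have hyr : ∀ z ∈ Str (ρ0 / 2), ∀ t ∈ Icc (0:ℝ) 1, ‖(ε:ℂ) * (Ph z + dz ψ z t)‖ < r₂ :=
    fun z hz t ht => lt_of_le_of_lt (hyn z hz t ht) (by rw [mul_comm]; exact hεr)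
  have hH : HSol S W r₂ φ ((ε:ℂ) ^ 2 * e1) ((ε:ℂ) * I) (ρ0 / 2) := by
    refine ⟨⟨?_, ?_, ?_⟩, ?_, ?_, ?_⟩
    · intro t ht z hz
      exact (hdφ z hz t ht).differentiableAt.differentiableWithinAt
    · have h1 : ContinuousOn Φ (Str (ρ0 / 2)) := fun z hz =>
        (hΦ z (hsub hz)).continuousAt.continuousWithinAt
      have h2 : ContinuousOn (fun q : ℂ × ℝ => Φ q.1) (Str (ρ0 / 2) ×ˢ Icc (0:ℝ) 1) :=
        h1.comp (f := fun q : ℂ × ℝ => q.1) (by fun_prop) (fun q hq => hq.1)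
      exact continuousOn_const.mul (h2.add hψ.sh.cont)
    · intro z hz t ht
      show (ε:ℂ) * (Φ (z + 1) + ψ (z + 1) t) = (ε:ℂ) * (Φ z + ψ z t)
      rw [hΦp z (hsub hz), hψ.sh.per z hz t ht]
    · intro z hz
      show (ε:ℂ) * (Φ z + ψ z 1) = (ε:ℂ) * (Φ z + ψ z 0)
      rw [hψ.close z hz]
    · intro z hz t ht
      rw [hdzφ z hz t ht]
      exact mem_Pb hS ht (hi2 z (hsub hz)) (hyr z hz t ht)
    · intro z hz t ht
      rw [hdzφ z hz t ht]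
      have h1 := ((hψ.eq z hz t ht).const_add (Φ z)).const_mul (ε:ℂ)
      have h2 : (ε:ℂ) * ((e1 - NN W Ph ε z t (dz ψ z t)) / ((1 / ε : ℝ) : ℂ))
          = (ε:ℂ) ^ 2 * e1 - Ef W t z (ε * (Ph z + dz ψ z t)) := by
        unfold NN
        push_cast
        field_simp
      rw [h2] at h1
      exact h1
  -- estimates on the real line
  have hreal := fun x : ℝ => real_mem_Str hρh x
  have hest : ∀ x : ℝ, ∀ t ∈ Icc (0:ℝ) 1,
      0 < (W t (x : ℂ) ((ε:ℂ) * I + dz φ (x : ℂ) t)).im ∧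
      ‖W t (x : ℂ) ((ε:ℂ) * I + dz φ (x : ℂ) t)‖ < min (min δ δ₀) gap := by
    intro x t ht
    have hx := hreal x
    have hx' := hsub hx
    rw [hdzφ x hx t ht]
    obtain ⟨y, hy⟩ : ∃ y : ℂ, y = (ε:ℂ) * (Ph x + dz ψ x t) := ⟨_, rfl⟩
    have hyn' := hyn x hx t ht
    have hyr' := hyr x hx t ht
    rw [← hy] at hyn' hyr' ⊢
    have h1 := W_est hS hMom hW ht (hi2 x hx') (hi3 x hx') hyr'
    rw [← hC1] at h1
    have h2 : C1 * ‖y‖ ^ 2 ≤ C1 * (ε * (B + 1)) ^ 2 :=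
      mul_le_mul_of_nonneg_left (pow_le_pow_left₀ (norm_nonneg _) hyn' 2) hC10
    have hkx := hk x hx'
    have hkpos : 0 < ‖S.κ (x:ℂ) 0‖ := lt_of_lt_of_le hK0 hkx
    have h3 : W t (x:ℂ) y = y / S.κ (x:ℂ) 0 + (W t (x:ℂ) y - y / S.κ (x:ℂ) 0) := by ring
    constructor
    · rw [h3, Complex.add_im]
      have h4 : -(C1 * (ε * (B + 1)) ^ 2) ≤ (W t (x:ℂ) y - y / S.κ (x:ℂ) 0).im :=
        (abs_le.mp ((Complex.abs_im_le_norm _).trans (h1.trans h2))).1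
      have h5 : y / S.κ (x:ℂ) 0 = (ε:ℂ) * (Ph x / S.κ (x:ℂ) 0 + dz ψ x t / S.κ (x:ℂ) 0) := by
        rw [hy]; ring
      have h6 : ‖dz ψ x t / S.κ (x:ℂ) 0‖ ≤ CN * (C1 * (B + 1) ^ 3 * ε) / K0 := by
        rw [norm_div]
        exact div_le_div₀ (by positivity) (hψb x hx t ht).1 hK0 hkx
      have h7 := (abs_le.mp ((Complex.abs_im_le_norm _).trans h6)).1
      have h8 := hIm x hx'
      have h5im : (y / S.κ (x:ℂ) 0).im
          = ε * ((Ph x / S.κ (x:ℂ) 0).im + (dz ψ x t / S.κ (x:ℂ) 0).im) := by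
        rw [h5, Complex.im_ofReal_mul, Complex.add_im]
      rw [h5im]
      have h9 : 2 * μ - CN * (C1 * (B + 1) ^ 3 * ε) / K0
          ≤ (Ph x / S.κ (x:ℂ) 0).im + (dz ψ x t / S.κ (x:ℂ) 0).im := by linarith
      have h10 := mul_le_mul_of_nonneg_left h9 hε.le
      have h11 : 0 < ε * (2 * μ - CN * (C1 * (B + 1) ^ 3 * ε) / K0) - C1 * (ε * (B + 1)) ^ 2 := by
        have h12 : ε * (2 * μ - CN * (C1 * (B + 1) ^ 3 * ε) / K0) - C1 * (ε * (B + 1)) ^ 2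
            = ε * (2 * μ - (CN * (C1 * (B + 1) ^ 3) / K0 + C1 * (B + 1) ^ 2) * ε) := by ring
        rw [h12]
        exact mul_pos hε (by linarith)
      linarith
    · have h4 : ‖y / S.κ (x:ℂ) 0‖ ≤ ε * (B + 1) / K0 := by
        rw [norm_div]
        exact div_le_div₀ (by positivity) hyn' hK0 hkx
      have h5 : ‖W t (x:ℂ) y‖ ≤ ε * (B + 1) / K0 + C1 * (ε * (B + 1)) ^ 2 := by
        rw [h3]
        exact (norm_add_le _ _).trans (add_le_add h4 (h1.trans h2))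
      have h6 : ε * (B + 1) / K0 + C1 * (ε * (B + 1)) ^ 2
          ≤ ((B + 1) / K0 + C1 * (B + 1) ^ 2) * ε := by
        have h7 : ((B + 1) / K0 + C1 * (B + 1) ^ 2) * ε - (ε * (B + 1) / K0 + C1 * (ε * (B + 1)) ^ 2)
            = C1 * (B + 1) ^ 2 * ε * (1 - ε) := by ring
        have h8 : 0 ≤ C1 * (B + 1) ^ 2 * ε * (1 - ε) :=
          mul_nonneg (by positivity) (by linarith)
        linarith
      exact lt_of_le_of_lt (h5.trans h6) hε8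
  have hreg : ∀ x : ℝ, ∀ t ∈ Icc (0:ℝ) 1,
      (W t (x : ℂ) ((ε:ℂ) * I + dz φ (x : ℂ) t)).im < min δ δ₀ ∧
      S.V S.a x t < (W t (x : ℂ) ((ε:ℂ) * I + dz φ (x : ℂ) t)).re ∧
      (W t (x : ℂ) ((ε:ℂ) * I + dz φ (x : ℂ) t)).re < S.V S.b x t := by
    intro x t ht
    obtain ⟨_, h2⟩ := hest x t ht
    have h3 := lt_of_lt_of_le h2 (min_le_left _ _)
    have h4 := lt_of_lt_of_le h2 (min_le_right _ _)
    have h5 := abs_le.mp (Complex.abs_re_le_norm (W t (x : ℂ) ((ε:ℂ) * I + dz φ (x : ℂ) t)))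
    have h6 := Complex.im_le_norm (W t (x : ℂ) ((ε:ℂ) * I + dz φ (x : ℂ) t))
    obtain ⟨h7, h8⟩ := hgapV x t ht
    exact ⟨by linarith, by linarith, by linarith⟩
  obtain ⟨ρ', hρ', _, hTor⟩ := hFrom (min δ δ₀) (ρ0 / 2) φ ((ε:ℂ) ^ 2 * e1) ((ε:ℂ) * I)
    (min_le_right _ _) hρh hH (fun x t ht => by
      obtain ⟨h1, _⟩ := hest x t ht
      obtain ⟨h3, h4, h5⟩ := hreg x t ht
      exact ⟨h1, h3.le, h4.le, h5.le⟩)
  refine ⟨ε, _, ρ', hε, hεη, ⟨⟨hTor.hρ, hTor.sh, hTor.nb, hTor.line, hTor.kick, ?_, hTor.reg,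
    hTor.mean⟩, ?_⟩⟩
  · intro x t ht
    obtain ⟨h1, h2⟩ := hTor.pos x t ht
    exact ⟨h1, h2.trans (min_le_left _ _)⟩
  · intro x t ht
    obtain ⟨h3, h4, h5⟩ := hreg x t ht
    exact ⟨lt_of_lt_of_le h3 (min_le_left _ _), h4, h5⟩

end Pool.Agent.Helper53.FT.St
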